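import Pool.Agent.Helper45.PT.Seg
import Pool.Agent.Helper97.RQ.IntPt

/-!
# Large boxes without zeros around integer zeros of the permanent (MP_381749_lc)
-/

set_option autoImplicit false

namespace Pool.HY

open MvPolynomial Pool.Agent.Helper24.SQ Pool.RQ Filter Topology

/-- the permanent divides no polynomial `P(x_q = 1) - P(x_q = 0)` -/
theorem not_dvd_minor {n : ℕ} (q : Fin n × Fin n) {a b : MvPolynomial (Fin n × Fin n) ℂ}
    (ha : Ind q a) (hb : Ind q b) (hP : permPoly n = X q * a + b)
    (hae : ∀ x, eval x a = eval (Function.update x q 1) (permPoly n) -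
        eval (Function.update x q 0) (permPoly n)) : ¬ permPoly n ∣ a := by
  rintro ⟨c, hc⟩
  -- `a` does not depend on the variable, hence vanishes
  have h7 : ∀ x : Fin n × Fin n → ℂ, eval x a = 0 := by
    intro x
    by_contra hx
    have h8 := congrArg (eval (Function.update x q (-(eval x b) / eval x a))) hc
    rw [map_mul, ha, hP, map_add, map_mul, eval_X, ha, hb, Function.update_self] at h8
    rw [div_mul_cancel₀ _ hx] at h8
    apply hx
    rw [h8]
    ring
  -- but it does not vanish at a permutation matrix
  obtain ⟨s, hs⟩ : ∃ s : Equiv.Perm (Fin n), s q.2 = q.1 := ⟨Equiv.swap q.2 q.1, by simp⟩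
  have h1 := hae (fun p => if s p.2 = p.1 then 1 else 0)
  rw [h7, eval_permPoly, eval_permPoly] at h1
  have h2 : (Matrix.of fun i j => Function.update
      (fun p : Fin n × Fin n => if s p.2 = p.1 then (1 : ℂ) else 0) q 1 (i, j)).permanent = 1 := by
    have e : (Matrix.of fun i j => Function.update
        (fun p : Fin n × Fin n => if s p.2 = p.1 then (1 : ℂ) else 0) q 1 (i, j)) =
        Matrix.of fun i j => if s j = i then (1 : ℂ) else 0 := by
      ext i j
      rw [Matrix.of_apply, Matrix.of_apply]
      by_cases h3 : (i, j) = q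
      · rw [h3, Function.update_self]
        subst h3
        rw [if_pos hs]
      · rw [Function.update_of_ne h3]
    rw [e]
    unfold Matrix.permanent
    rw [Finset.sum_eq_single s]
    · exact Finset.prod_eq_one fun i _ => by rw [Matrix.of_apply, if_pos rfl]
    · intro s' _ hs'
      obtain ⟨i, hi⟩ : ∃ i, s' i ≠ s i := by
        by_contra hcon
        push Not at hcon
        exact hs' (Equiv.ext hcon)
      refine Finset.prod_eq_zero (Finset.mem_univ i) ?_
      rw [Matrix.of_apply, if_neg (Ne.symm hi)]
    · intro h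
      exact absurd (Finset.mem_univ _) h
  have h4 : (Matrix.of fun i j => Function.update
      (fun p : Fin n × Fin n => if s p.2 = p.1 then (1 : ℂ) else 0) q 0 (i, j)).permanent = 0 := by
    refine Finset.sum_eq_zero fun s' _ => ?_
    by_cases hs' : s' = s
    · refine Finset.prod_eq_zero (Finset.mem_univ q.2) ?_
      rw [Matrix.of_apply, hs', hs, Prod.mk.eta, Function.update_self]
    · obtain ⟨i, hi⟩ : ∃ i, s' i ≠ s i := by
        by_contra hcon
        push Not at hcon
        exact hs' (Equiv.ext hcon)
      refine Finset.prod_eq_zero (Finset.mem_univ i) ?_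
      rw [Matrix.of_apply]
      by_cases h5 : (s' i, i) = q
      · rw [h5, Function.update_self]
      · rw [Function.update_of_ne h5]
        exact if_neg (Ne.symm hi)
  rw [h2, h4] at h1
  norm_num at h1

/-- the permanent after a change of one entry by `c` -/
theorem permanent_add_single {n : ℕ} (X : Matrix (Fin n) (Fin n) ℤ) (a b : Fin n) (c : ℤ) :
    (X + Matrix.single a b c).permanent = X.permanent +
      c * ((Matrix.of fun i j => Function.update (fun p => X p.1 p.2) (a, b) 1 (i, j)).permanent -
        (Matrix.of fun i j => Function.update (fun p => X p.1 p.2) (a, b) 0 (i, j)).permanent) := by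
  have key : ∀ (f : Fin n → Fin n → ℤ), (∀ i j, ¬ (i = a ∧ j = b) → f i j = X i j) →
      (Matrix.of f).permanent = f a b *
      ((Matrix.of fun i j => Function.update (fun p => X p.1 p.2) (a, b) 1 (i, j)).permanent -
        (Matrix.of fun i j => Function.update (fun p => X p.1 p.2) (a, b) 0 (i, j)).permanent) +
        (Matrix.of fun i j => Function.update (fun p => X p.1 p.2) (a, b) 0 (i, j)).permanent := by
    intro f hf
    simp only [Matrix.permanent, Matrix.of_apply]
    rw [← Finset.sum_sub_distrib, Finset.mul_sum, ← Finset.sum_add_distrib]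
    refine Finset.sum_congr rfl fun s _ => ?_
    by_cases hs : s b = a
    · have k1 : ∏ i, f (s i) i = f a b * ∏ i ∈ Finset.univ.erase b, X (s i) i := by
        rw [← Finset.mul_prod_erase _ _ (Finset.mem_univ b), hs]
        congr 1
        refine Finset.prod_congr rfl fun i hi => hf _ _ ?_
        rintro ⟨-, h⟩
        exact (Finset.mem_erase.1 hi).1 h
      have k2 : ∀ t : ℤ, ∏ i, Function.update (fun p : Fin n × Fin n => X p.1 p.2) (a, b) t (s i, i) =
          t * ∏ i ∈ Finset.univ.erase b, X (s i) i := by
        intro t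
        rw [← Finset.mul_prod_erase _ _ (Finset.mem_univ b), hs, Function.update_self]
        congr 1
        refine Finset.prod_congr rfl fun i hi => ?_
        rw [Function.update_of_ne]
        intro h
        exact (Finset.mem_erase.1 hi).1 (congrArg Prod.snd h)
      rw [k1, k2, k2]
      ring
    · have k1 : ∏ i, f (s i) i = ∏ i, X (s i) i := by
        refine Finset.prod_congr rfl fun i _ => hf _ _ ?_
        rintro ⟨h, rfl⟩
        exact hs h
      have k2 : ∀ t : ℤ, ∏ i, Function.update (fun p : Fin n × Fin n => X p.1 p.2) (a, b) t (s i, i) =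
          ∏ i, X (s i) i := by
        intro t
        refine Finset.prod_congr rfl fun i _ => ?_
        rw [Function.update_of_ne]
        intro h
        have h1 := congrArg Prod.fst h
        have h2 := congrArg Prod.snd h
        simp only at h1 h2
        apply hs
        rw [← h2]
        exact h1
      rw [k1, k2, k2]
      ring
  have h1 := key (fun i j => X i j) fun _ _ _ => rfl
  have h2 := key (fun i j => X i j + Matrix.single a b c i j) fun i j hij => by
    rw [Matrix.single_apply, if_neg (fun h => hij ⟨h.1.symm, h.2.symm⟩), add_zero]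
  have e1 : (Matrix.of fun i j => X i j) = X := rfl
  have e2 : (Matrix.of fun i j => X i j + Matrix.single a b c i j) = X + Matrix.single a b c := rfl
  rw [e1] at h1
  rw [e2] at h2
  rw [h2, h1, Matrix.single_apply_same]
  ring

/-- A function which is locally constant at each point of a segment takes the same value at the
ends. -/
theorem seg_const {n : ℕ} {α : Type} (q : Matrix (Fin n) (Fin n) ℝ → α)
    (X Z : Matrix (Fin n) (Fin n) ℝ)
    (h : ∀ s ∈ Set.Icc (0 : ℝ) 1, ∃ ε : ℝ, 0 < ε ∧ ∀ Y : Matrix (Fin n) (Fin n) ℝ,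
      (∀ a b, |Y a b - (X + s • Z) a b| < ε) → q Y = q (X + s • Z)) :
    q (X + Z) = q X := by
  let _ : TopologicalSpace α := ⊥
  have _ : DiscreteTopology α := ⟨rfl⟩
  have h1 : ContinuousOn (fun s : ℝ => q (X + s • Z)) (Set.Icc (0 : ℝ) 1) := by
    intro s hs
    obtain ⟨ε, hε, hq⟩ := h s hs
    apply ContinuousAt.continuousWithinAt
    have h2 : (fun s' : ℝ => q (X + s' • Z)) =ᶠ[𝓝 s] fun _ => q (X + s • Z) := by
      have h3 : ∀ᶠ s' in 𝓝 s, ∀ a b, |(X + s' • Z) a b - (X + s • Z) a b| < ε := by
        rw [eventually_all]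
        intro a
        rw [eventually_all]
        intro b
        have hc : Tendsto (fun s' : ℝ => |(X + s' • Z) a b - (X + s • Z) a b|) (𝓝 s) (𝓝 0) := by
          have hc1 : Continuous fun s' : ℝ => |(X + s' • Z) a b - (X + s • Z) a b| := by
            simp only [Matrix.add_apply, Matrix.smul_apply, smul_eq_mul]
            fun_prop
          have := hc1.tendsto s
          simpa using this
        exact hc.eventually (gt_mem_nhds hε)
      filter_upwards [h3] with s' hs'
      exact hq _ hs'
    exact (continuousAt_const).congr h2.symm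
  have h5 := isPreconnected_Icc.constant h1 (Set.left_mem_Icc.2 zero_le_one)
    (Set.right_mem_Icc.2 zero_le_one)
  simp only [zero_smul, add_zero, one_smul] at h5
  exact h5.symm

/-- Let the permanent divide no leading form of `G 0, ..., G (k - 1)`. Then for each `R` there is
an integer matrix `X` with `perm X = 0` such that no `G i` vanishes in the box of radius `R`
around `X`, and changing any entry by `1` changes the permanent by at least `R`. -/
theorem box_int (n k : ℕ) (hn : 2 ≤ n) (G : Fin k → MvPolynomial (Fin n × Fin n) ℂ)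
    (hG : ∀ i, ¬ permPoly n ∣ homogeneousComponent (G i).totalDegree (G i)) (R : ℕ) :
    ∃ X : Matrix (Fin n) (Fin n) ℤ, X.permanent = 0 ∧
      (∀ a b, (R : ℤ) ≤ |(X + Matrix.single a b 1).permanent| ∧
        (X - Matrix.single a b 1).permanent = -(X + Matrix.single a b 1).permanent) ∧
      ∀ Y : Matrix (Fin n) (Fin n) ℂ, (∀ a b, ‖Y a b - X a b‖ ≤ R) →
        ∀ i, eval (fun p => Y p.1 p.2) (G i) ≠ 0 := by
  classical
  have hn1 : 1 ≤ n := by omega
  have hlin := fun q : Fin n × Fin n => perm_lin n q
  choose a b ha hb hP hae hbe using hlin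
  have hprod : ¬ permPoly n ∣ (∏ i, homogeneousComponent (G i).totalDegree (G i)) * ∏ q, a q := by
    intro h
    rcases (perm_prime hn1).dvd_or_dvd h with h | h
    · obtain ⟨i, -, hi⟩ := (Prime.dvd_finsetProd_iff (perm_prime hn1) _).1 h
      exact hG i hi
    · obtain ⟨q, -, hq⟩ := (Prime.dvd_finsetProd_iff (perm_prime hn1) _).1 h
      exact not_dvd_minor q (ha q) (hb q) (hP q) (hae q) hq
  obtain ⟨X0, hX0, hGX⟩ := int_pt n hn1 _ hprod
  rw [map_mul, map_prod, map_prod] at hGX
  have hG0 := left_ne_zero_of_mul hGX
  have hA0 := right_ne_zero_of_mul hGX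
  rw [Finset.prod_ne_zero_iff] at hG0 hA0
  -- the minors
  set M : Fin n → Fin n → ℤ := fun a' b' =>
    (Matrix.of fun i j => Function.update (fun p => X0 p.1 p.2) (a', b') 1 (i, j)).permanent -
        (Matrix.of fun i j => Function.update (fun p => X0 p.1 p.2) (a', b') 0 (i, j)).permanent
    with hM
  have hM0 : ∀ a' b', M a' b' ≠ 0 := by
    intro a' b' h0
    apply hA0 (a', b') (Finset.mem_univ _)
    rw [hae]
    have h1 := update_cast (fun p : Fin n × Fin n => X0 p.1 p.2) (a', b') 1
    have h2 := update_cast (fun p : Fin n × Fin n => X0 p.1 p.2) (a', b') 0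
    rw [Int.cast_one] at h1
    rw [Int.cast_zero] at h2
    rw [h1, h2, eval_perm_int, eval_perm_int, ← Int.cast_sub]
    exact_mod_cast h0
  have hK : IsCompact (Set.pi Set.univ fun _ : Fin n × Fin n =>
      Metric.closedBall (0 : ℂ) (R : ℝ)) := isCompact_univ_pi fun _ => isCompact_closedBall _ _
  have hfar : ∀ᶠ t : ℕ in atTop, ∀ i, ∀ z ∈ Set.pi Set.univ fun _ : Fin n × Fin n =>
      Metric.closedBall (0 : ℂ) (R : ℝ),
      eval (fun p => (t : ℂ) * (X0 p.1 p.2 : ℂ) + z p) (G i) ≠ 0 := by
    rw [eventually_all]
    intro i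
    exact Pool.PT.far (G i) (fun p => (X0 p.1 p.2 : ℂ)) (hG0 i (Finset.mem_univ i)) hK
  obtain ⟨t, ht, htR⟩ := (hfar.and (eventually_ge_atTop (R + 1))).exists
  have hXt : ((t : ℤ) • X0).permanent = 0 := by
    rw [Matrix.permanent_smul, hX0, mul_zero]
  have hMt : ∀ a' b', (Matrix.of fun i j => Function.update (fun p => ((t : ℤ) • X0) p.1 p.2)
      (a', b') 1 (i, j)).permanent - (Matrix.of fun i j => Function.update
        (fun p => ((t : ℤ) • X0) p.1 p.2) (a', b') 0 (i, j)).permanent =
        (t : ℤ) ^ (n - 1) * M a' b' := by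
    intro a' b'
    simp only [hM, Matrix.permanent, Matrix.of_apply]
    rw [← Finset.sum_sub_distrib, ← Finset.sum_sub_distrib, Finset.mul_sum]
    refine Finset.sum_congr rfl fun s _ => ?_
    by_cases hs : s b' = a'
    · have k2 : ∀ (Z : Matrix (Fin n) (Fin n) ℤ) (c : ℤ),
          ∏ i, Function.update (fun p : Fin n × Fin n => Z p.1 p.2) (a', b') c (s i, i) =
          c * ∏ i ∈ Finset.univ.erase b', Z (s i) i := by
        intro Z c
        rw [← Finset.mul_prod_erase _ _ (Finset.mem_univ b'), hs, Function.update_self]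
        congr 1
        refine Finset.prod_congr rfl fun i hi => ?_
        rw [Function.update_of_ne]
        intro h
        exact (Finset.mem_erase.1 hi).1 (congrArg Prod.snd h)
      rw [k2, k2, k2, k2]
      simp only [Matrix.smul_apply, smul_eq_mul, Finset.prod_mul_distrib, Finset.prod_const]
      rw [Finset.card_erase_of_mem (Finset.mem_univ _), Finset.card_univ, Fintype.card_fin]
      ring
    · have k2 : ∀ (Z : Matrix (Fin n) (Fin n) ℤ) (c : ℤ),
          ∏ i, Function.update (fun p : Fin n × Fin n => Z p.1 p.2) (a', b') c (s i, i) =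
          ∏ i, Z (s i) i := by
        intro Z c
        refine Finset.prod_congr rfl fun i _ => ?_
        rw [Function.update_of_ne]
        intro h
        have h1 := congrArg Prod.fst h
        have h2 := congrArg Prod.snd h
        simp only at h1 h2
        apply hs
        rw [← h2]
        exact h1
      rw [k2, k2, k2, k2]
      ring
  refine ⟨(t : ℤ) • X0, hXt, fun a' b' => ⟨?_, ?_⟩, fun Y hY i => ?_⟩
  · rw [permanent_add_single, hXt, hMt, zero_add, one_mul, abs_mul, abs_pow]
    have h1 : (1 : ℤ) ≤ |M a' b'| := Int.one_le_abs (hM0 a' b')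
    have h2 : (R : ℤ) ≤ |(t : ℤ)| ^ (n - 1) := by
      have h3 : (R : ℤ) ≤ |(t : ℤ)| := by
        rw [abs_of_nonneg (by positivity)]
        have : R ≤ t := by omega
        exact_mod_cast this
      have h4 : (1 : ℤ) ≤ |(t : ℤ)| := by
        rw [abs_of_nonneg (by positivity)]
        have : 1 ≤ t := by omega
        exact_mod_cast this
      exact h3.trans (le_self_pow₀ h4 (by omega))
    calc (R : ℤ) ≤ |(t : ℤ)| ^ (n - 1) * 1 := by rw [mul_one]; exact h2
      _ ≤ _ := mul_le_mul_of_nonneg_left h1 (by positivity)
  · have e0 : Matrix.single a' b' (-1 : ℤ) = -Matrix.single a' b' 1 := by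
      ext i j
      rw [Matrix.neg_apply, Matrix.single_apply, Matrix.single_apply]
      split_ifs <;> simp
    have e1 : (t : ℤ) • X0 - Matrix.single a' b' 1 = (t : ℤ) • X0 + Matrix.single a' b' (-1) := by
      rw [sub_eq_add_neg, e0]
    rw [e1, permanent_add_single, permanent_add_single, hXt]
    ring
  · have h1 := ht i (fun p => Y p.1 p.2 - (((t : ℤ) • X0) p.1 p.2 : ℤ)) fun p _ => by
      rw [mem_closedBall_zero_iff]
      exact hY p.1 p.2
    have h2 : (fun p : Fin n × Fin n => (t : ℂ) * (X0 p.1 p.2 : ℂ) +
        (Y p.1 p.2 - (((t : ℤ) • X0) p.1 p.2 : ℤ))) = fun p => Y p.1 p.2 := by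
      funext p
      rw [Matrix.smul_apply, smul_eq_mul]
      push_cast
      ring
    rwa [h2] at h1

end Pool.HY
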