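import Mathlib

/-!
# From the counting inequality with three groups to the final inequality (MP_381749_lc)
-/

set_option autoImplicit false

namespace Pool.HY

open Finset

theorem choose_bd (a L : ℕ) :
    (a + L) ^ L * (a.factorial * L.factorial) ≤ L ^ L * (a + L).factorial := by
  rw [← Nat.factorial_mul_ascFactorial, Nat.ascFactorial_eq_prod_range,
    ← Finset.prod_range_add_one_eq_factorial L]
  have h1 : (a + L) ^ L * ∏ i ∈ range L, (i + 1) ≤ L ^ L * ∏ i ∈ range L, (a + 1 + i) := by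
    have e1 : (a + L) ^ L = ∏ _i ∈ range L, (a + L) := by
      rw [Finset.prod_const, Finset.card_range]
    have e2 : L ^ L = ∏ _i ∈ range L, L := by
      rw [Finset.prod_const, Finset.card_range]
    rw [e1, e2, ← Finset.prod_mul_distrib, ← Finset.prod_mul_distrib]
    refine Finset.prod_le_prod' fun i hi => ?_
    have hi' : i + 1 ≤ L := Finset.mem_range.1 hi
    have h2 : a * (i + 1) ≤ a * L := Nat.mul_le_mul_left a hi'
    calc (a + L) * (i + 1) = a * (i + 1) + L * (i + 1) := by ring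
      _ ≤ a * L + L * (i + 1) := by omega
      _ = L * (a + 1 + i) := by ring
  calc (a + L) ^ L * (a.factorial * ∏ i ∈ range L, (i + 1))
      = a.factorial * ((a + L) ^ L * ∏ i ∈ range L, (i + 1)) := by ring
    _ ≤ a.factorial * (L ^ L * ∏ i ∈ range L, (a + 1 + i)) := Nat.mul_le_mul_left _ h1
    _ = L ^ L * (a.factorial * ∏ i ∈ range L, (a + 1 + i)) := by ring

/-- numerical consequence of the counting inequality with three groups -/
theorem num_bound3 (S m M L e : ℕ) (hm : 0 < m) (hM : 0 < M) (h : ∀ α β γ : ℕ,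
    S * (α ^ (4 * m) * β ^ (M + L) * γ ^ L) * ((M + L).factorial * (4 * m + L).factorial) ≤
      ((4 * m).factorial * (M + L).factorial * L.factorial) *
      (((e + 1) * α + (e + 1) * β + (e + 2) * γ) ^ (M + L) * (α + 2 * β) ^ (4 * m + L))) :
    (S : ℝ) ≤ (Real.exp 1 * (e + 1) * (24 * m / M + 5)) ^ M * (11 * Real.exp 1 * (e + 1)) ^ L := by
  have h := h (8 * m) (M + L) (8 * m + 2 * (M + L))
  -- the sum is at most
  have hG : (e + 1) * (8 * m) + (e + 1) * (M + L) + (e + 2) * (8 * m + 2 * (M + L)) ≤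
      (e + 1) * (24 * m + 5 * (M + L)) := by
    nlinarith [Nat.zero_le (e * m), Nat.zero_le (e * (M + L))]
  set b : ℕ := M + L with hb
  set G : ℕ := (e + 1) * (24 * m + 5 * b) with hGd
  have h1 : S * ((8 * m) ^ (4 * m) * b ^ b * (8 * m + 2 * b) ^ L) *
      (b.factorial * (4 * m + L).factorial) ≤
      ((4 * m).factorial * b.factorial * L.factorial) *
        (G ^ b * (8 * m + 2 * b) ^ (4 * m + L)) :=
    h.trans (Nat.mul_le_mul_left _ (Nat.mul_le_mul_right _ (Nat.pow_le_pow_left hG _)))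
  -- remove the factorials
  have h2 : S * (8 * m) ^ (4 * m) * b ^ b * (4 * m + L) ^ L ≤
      L ^ L * G ^ b * (8 * m + 2 * b) ^ (4 * m) := by
    have hpos : 0 < (8 * m + 2 * b) ^ L * b.factorial * (4 * m + L).factorial := by positivity
    refine Nat.le_of_mul_le_mul_left ?_ hpos
    calc (8 * m + 2 * b) ^ L * b.factorial * (4 * m + L).factorial *
          (S * (8 * m) ^ (4 * m) * b ^ b * (4 * m + L) ^ L)
        = (4 * m + L) ^ L * (S * ((8 * m) ^ (4 * m) * b ^ b * (8 * m + 2 * b) ^ L) *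
            (b.factorial * (4 * m + L).factorial)) := by ring
      _ ≤ (4 * m + L) ^ L * (((4 * m).factorial * b.factorial * L.factorial) *
            (G ^ b * (8 * m + 2 * b) ^ (4 * m + L))) := Nat.mul_le_mul_left _ h1
      _ = ((4 * m + L) ^ L * ((4 * m).factorial * L.factorial)) *
            (b.factorial * (G ^ b * (8 * m + 2 * b) ^ (4 * m + L))) := by ring
      _ ≤ (L ^ L * (4 * m + L).factorial) *
            (b.factorial * (G ^ b * (8 * m + 2 * b) ^ (4 * m + L))) :=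
          Nat.mul_le_mul_right _ (choose_bd (4 * m) L)
      _ = (8 * m + 2 * b) ^ L * b.factorial * (4 * m + L).factorial *
            (L ^ L * G ^ b * (8 * m + 2 * b) ^ (4 * m)) := by
          rw [pow_add]; ring
  -- real numbers
  have hm' : (0 : ℝ) < m := by exact_mod_cast hm
  have hMp : (0 : ℝ) < M := by exact_mod_cast hM
  have hbp : (0 : ℝ) < b := by
    have : 0 < b := by omega
    exact_mod_cast this
  have h3 : (S : ℝ) * (8 * m : ℝ) ^ (4 * m) * (b : ℝ) ^ b * (4 * m + L : ℝ) ^ L ≤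
      (L : ℝ) ^ L * (G : ℝ) ^ b * (8 * m + 2 * b : ℝ) ^ (4 * m) := by
    exact_mod_cast h2
  have e1 : (8 * m + 2 * b : ℝ) ^ (4 * m) =
      (8 * m : ℝ) ^ (4 * m) * (1 + b / (4 * m : ℝ)) ^ (4 * m) := by
    rw [← mul_pow]
    congr 1
    field_simp
    ring
  have e2 : (1 + b / (4 * m : ℝ)) ^ (4 * m) ≤ Real.exp 1 ^ b := by
    have h4 : (1 + b / (4 * m : ℝ)) ≤ Real.exp (b / (4 * m : ℝ)) := by
      have := Real.add_one_le_exp (b / (4 * m : ℝ))
      linarith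
    calc (1 + b / (4 * m : ℝ)) ^ (4 * m) ≤ (Real.exp (b / (4 * m : ℝ))) ^ (4 * m) := by
          gcongr
      _ = Real.exp b := by
          rw [← Real.exp_nat_mul]
          congr 1
          push_cast
          field_simp
      _ = Real.exp 1 ^ b := by
          rw [← Real.exp_nat_mul, mul_one]
  have h4 : (S : ℝ) * (b : ℝ) ^ b * (4 * m + L : ℝ) ^ L ≤
      (L : ℝ) ^ L * (G : ℝ) ^ b * Real.exp 1 ^ b := by
    have hpos : (0 : ℝ) < (8 * m : ℝ) ^ (4 * m) := by positivity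
    refine le_of_mul_le_mul_left ?_ hpos
    calc (8 * m : ℝ) ^ (4 * m) * ((S : ℝ) * (b : ℝ) ^ b * (4 * m + L : ℝ) ^ L)
        = (S : ℝ) * (8 * m : ℝ) ^ (4 * m) * (b : ℝ) ^ b * (4 * m + L : ℝ) ^ L := by ring
      _ ≤ (L : ℝ) ^ L * (G : ℝ) ^ b * (8 * m + 2 * b : ℝ) ^ (4 * m) := h3
      _ = (L : ℝ) ^ L * (G : ℝ) ^ b *
            ((8 * m : ℝ) ^ (4 * m) * (1 + b / (4 * m : ℝ)) ^ (4 * m)) := by rw [e1]
      _ ≤ (L : ℝ) ^ L * (G : ℝ) ^ b * ((8 * m : ℝ) ^ (4 * m) * Real.exp 1 ^ b) := by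
          gcongr
      _ = (8 * m : ℝ) ^ (4 * m) * ((L : ℝ) ^ L * (G : ℝ) ^ b * Real.exp 1 ^ b) := by ring
  -- conclusion
  have hGR : (G : ℝ) = (e + 1) * (24 * m + 5 * b) := by
    rw [hGd]; push_cast; ring
  have hbR : (b : ℝ) = M + L := by rw [hb]; push_cast; ring
  have hL0 : (0 : ℝ) ≤ L := by positivity
  have he0 : (0 : ℝ) < Real.exp 1 := Real.exp_pos 1
  have h5 : (S : ℝ) ≤ (Real.exp 1 * G / b) ^ M * (Real.exp 1 * G * L / (b * (4 * m + L))) ^ L := by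
    have h6 : (Real.exp 1 * G / b) ^ M * (Real.exp 1 * G * L / (b * (4 * m + L))) ^ L =
        ((L : ℝ) ^ L * (G : ℝ) ^ b * Real.exp 1 ^ b) / ((b : ℝ) ^ b * (4 * m + L : ℝ) ^ L) := by
      have e3 : ∀ x : ℝ, x ^ b = x ^ M * x ^ L := fun x => by rw [hb, pow_add]
      rw [e3 G, e3 (Real.exp 1), e3 (b : ℝ), div_pow, div_pow, mul_pow, mul_pow, mul_pow, mul_pow,
        div_mul_div_comm]
      congr 1 <;> ring
    rw [h6, le_div_iff₀ (by positivity)]
    calc (S : ℝ) * ((b : ℝ) ^ b * (4 * m + L : ℝ) ^ L)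
        = (S : ℝ) * (b : ℝ) ^ b * (4 * m + L : ℝ) ^ L := by ring
      _ ≤ _ := h4
  refine h5.trans ?_
  have hG0 : (0 : ℝ) ≤ G := by positivity
  have h7 : Real.exp 1 * G / b ≤ Real.exp 1 * (e + 1) * (24 * m / M + 5) := by
    have h8 : (24 * m : ℝ) / b ≤ 24 * m / M := by
      apply div_le_div_of_nonneg_left (by positivity) hMp
      rw [hbR]; linarith
    have h9 : Real.exp 1 * G / b = Real.exp 1 * (e + 1) * (24 * m / b + 5) := by
      rw [hGR]
      field_simp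
    rw [h9]
    gcongr
  have h10 : Real.exp 1 * G * L / (b * (4 * m + L)) ≤ 11 * Real.exp 1 * (e + 1) := by
    rw [div_le_iff₀ (by positivity), hGR]
    have h11 : (24 * m + 5 * b : ℝ) * L ≤ 11 * (b * (4 * m + L)) := by
      have h12 : (L : ℝ) ≤ b := by rw [hbR]; linarith
      have h13 : (m : ℝ) * L ≤ m * b := mul_le_mul_of_nonneg_left h12 hm'.le
      have h14 : (0 : ℝ) ≤ m * b := by positivity
      have h15 : (0 : ℝ) ≤ b * L := by positivity
      nlinarith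
    calc Real.exp 1 * ((e + 1) * (24 * m + 5 * b)) * L
        = (Real.exp 1 * (e + 1)) * ((24 * m + 5 * b) * L) := by ring
      _ ≤ (Real.exp 1 * (e + 1)) * (11 * (b * (4 * m + L))) :=
          mul_le_mul_of_nonneg_left h11 (by positivity)
      _ = 11 * Real.exp 1 * (e + 1) * (b * (4 * m + L)) := by ring
  gcongr

/-- the root of the inequality -/
theorem root_le {d : ℕ} (hd : 8 ≤ d) {X : ℝ} (hX0 : 0 ≤ X)
    (h : (d.factorial : ℝ) ^ (2 * (2 * d - 1)) ≤ X ^ ((2 * d - 1) * (2 * d) + 4)) :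
    (d : ℝ) / (2 * Real.exp 1) ≤ X := by
  set N := (2 * d - 1) * (2 * d) with hN
  have hdR : (8 : ℝ) ≤ d := by exact_mod_cast hd
  have he : (0 : ℝ) < Real.exp 1 := Real.exp_pos 1
  have he2 : 2.7182818283 < Real.exp 1 := Real.exp_one_gt_d9
  have hfac : ((d : ℝ) / Real.exp 1) ^ d ≤ d.factorial := by
    have h1 := Real.pow_div_factorial_le_exp (d : ℝ) (by positivity) d
    rw [div_le_iff₀ (by positivity)] at h1
    rw [div_pow, div_le_iff₀ (by positivity)]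
    have h2 : Real.exp (d : ℝ) = Real.exp 1 ^ d := by rw [← Real.exp_nat_mul, mul_one]
    rw [h2] at h1
    linarith
  have h2 : ((d : ℝ) / Real.exp 1) ^ N ≤ X ^ (N + 4) := by
    calc ((d : ℝ) / Real.exp 1) ^ N = (((d : ℝ) / Real.exp 1) ^ d) ^ (2 * (2 * d - 1)) := by
          rw [← pow_mul]; congr 1; rw [hN]; ring
      _ ≤ (d.factorial : ℝ) ^ (2 * (2 * d - 1)) := pow_le_pow_left₀ (by positivity) hfac _
      _ ≤ X ^ (N + 4) := h
  have hNd : 2 * d ^ 2 ≤ N := by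
    have : d * (2 * d) ≤ (2 * d - 1) * (2 * d) :=
      Nat.mul_le_mul (by omega) le_rfl
    rw [hN]
    nlinarith
  by_contra hcon
  push Not at hcon
  have h4 : X ^ (N + 4) ≤ ((d : ℝ) / (2 * Real.exp 1)) ^ (N + 4) :=
    pow_le_pow_left₀ hX0 hcon.le _
  have h5 : ((d : ℝ) / (2 * Real.exp 1)) ^ (N + 4) =
      ((d : ℝ) / Real.exp 1) ^ N * (((d : ℝ) / Real.exp 1) ^ 4 / 2 ^ (N + 4)) := by
    have : (d : ℝ) / (2 * Real.exp 1) = (d : ℝ) / Real.exp 1 / 2 := by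
      field_simp
    rw [this, div_pow, pow_add]
    ring
  have h6 : ((d : ℝ) / Real.exp 1) ^ 4 / 2 ^ (N + 4) < 1 := by
    rw [div_lt_one (by positivity)]
    have h7 : ((d : ℝ) / Real.exp 1) ^ 4 ≤ (d : ℝ) ^ 4 := by
      apply pow_le_pow_left₀ (by positivity)
      rw [div_le_iff₀ he]
      nlinarith
    have h8 : (d : ℝ) ^ 4 < 2 ^ (N + 4) := by
      have h9 : d ^ 2 < 2 ^ (d ^ 2) := Nat.lt_two_pow_self
      have h10 : (d ^ 2) ^ 2 < (2 ^ (d ^ 2)) ^ 2 := Nat.pow_lt_pow_left h9 (by norm_num)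
      have h11 : (2 ^ (d ^ 2)) ^ 2 ≤ 2 ^ (N + 4) := by
        rw [← pow_mul]
        apply Nat.pow_le_pow_right (by norm_num)
        omega
      have h12 : d ^ 4 < 2 ^ (N + 4) := by
        calc d ^ 4 = (d ^ 2) ^ 2 := by ring
          _ < (2 ^ (d ^ 2)) ^ 2 := h10
          _ ≤ 2 ^ (N + 4) := h11
      exact_mod_cast h12
    linarith
  have h11 : 0 < ((d : ℝ) / Real.exp 1) ^ N := by positivity
  have h12 : X ^ (N + 4) < ((d : ℝ) / Real.exp 1) ^ N := by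
    calc X ^ (N + 4) ≤ ((d : ℝ) / Real.exp 1) ^ N * (((d : ℝ) / Real.exp 1) ^ 4 / 2 ^ (N + 4)) := by
          rw [← h5]; exact h4
      _ < ((d : ℝ) / Real.exp 1) ^ N * 1 := by
          exact mul_lt_mul_of_pos_left h6 h11
      _ = ((d : ℝ) / Real.exp 1) ^ N := mul_one _
  linarith

theorem numericH (C₀ : ℕ) (hC : 1 ≤ C₀) : ∃ c : ℝ, 0 < c ∧ ∀ n m e L : ℕ, 1 ≤ m →
    (∀ M d : ℕ, 2 ≤ M → M ^ 3 = 2 * d → 2 ≤ d → C₀ * M ^ 3 ≤ n →
      (d.factorial : ℝ) ^ (2 * (2 * d - 1)) ≤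
        (Real.exp 1 * (e + 1) * (24 * m / ((2 * d - 1) * (2 * d) + 4 : ℕ) + 5)) ^
          ((2 * d - 1) * (2 * d) + 4) * (11 * Real.exp 1 * (e + 1)) ^ L) →
    c * (n : ℝ) ^ 3 ≤ (max m (n ^ 2) : ℕ) * (e + 1) *
      (2 * (e + 1) : ℝ) ^ ((L : ℝ) / (c * (n : ℝ) ^ 2)) := by
  have hCR : (1 : ℝ) ≤ C₀ := by exact_mod_cast hC
  have hC0 : (0 : ℝ) < C₀ := by linarith
  refine ⟨1 / (262144 * (C₀ : ℝ) ^ 3), by positivity, fun n m e L hm H => ?_⟩
  set c : ℝ := 1 / (262144 * (C₀ : ℝ) ^ 3) with hc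
  have hcpos : 0 < c := by positivity
  have hmR : (1 : ℝ) ≤ m := by exact_mod_cast hm
  have he0 : (0 : ℝ) ≤ e := by positivity
  set mm : ℝ := ((max m (n ^ 2) : ℕ) : ℝ) with hmm
  have hmm1 : (m : ℝ) ≤ mm := by
    rw [hmm]; exact_mod_cast le_max_left _ _
  have hmm2 : (n : ℝ) ^ 2 ≤ mm := by
    rw [hmm]; exact_mod_cast le_max_right _ _
  have hmm0 : (1 : ℝ) ≤ mm := hmR.trans hmm1
  have h2E : (1 : ℝ) ≤ 2 * (e + 1) := by linarith
  have hW1 : (1 : ℝ) ≤ (2 * (e + 1) : ℝ) ^ ((L : ℝ) / (c * (n : ℝ) ^ 2)) :=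
    Real.one_le_rpow h2E (by positivity)
  set W : ℝ := (2 * (e + 1) : ℝ) ^ ((L : ℝ) / (c * (n : ℝ) ^ 2)) with hW
  rcases lt_or_ge n (C₀ * 64) with hsmall | hbig
  · -- small n
    have h1 : (n : ℝ) ≤ C₀ * 64 := by exact_mod_cast hsmall.le
    have h2 : (n : ℝ) ^ 3 ≤ (C₀ * 64) ^ 3 := pow_le_pow_left₀ (by positivity) h1 3
    rw [hc, one_div, inv_mul_le_iff₀ (by positivity)]
    have h4 : (C₀ * 64 : ℝ) ^ 3 = 262144 * (C₀ : ℝ) ^ 3 := by ring
    rw [h4] at h2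
    have h5 : (1 : ℝ) ≤ mm * (e + 1) * W := by
      have h6 : (1 : ℝ) ≤ mm * (e + 1) := by nlinarith
      calc (1 : ℝ) = 1 * 1 := by ring
        _ ≤ mm * (e + 1) * W := mul_le_mul h6 hW1 (by norm_num) (by linarith)
    calc (n : ℝ) ^ 3 ≤ 262144 * (C₀ : ℝ) ^ 3 * 1 := by rw [mul_one]; exact h2
      _ ≤ 262144 * (C₀ : ℝ) ^ 3 * (mm * (e + 1) * W) :=
        mul_le_mul_of_nonneg_left h5 (by positivity)
  · -- large n
    have hex : ∃ k : ℕ, C₀ * (8 * (k + 1) ^ 3) > n := by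
      refine ⟨n, ?_⟩
      have h1 : n + 1 ≤ (n + 1) ^ 3 := Nat.le_self_pow (by norm_num) _
      nlinarith [Nat.mul_le_mul hC h1]
    classical
    set k := Nat.find hex with hk
    have hk1 : n < C₀ * (8 * (k + 1) ^ 3) := Nat.find_spec hex
    have hk2 : 2 ≤ k := by
      by_contra hcon
      push Not at hcon
      have : (k + 1) ^ 3 ≤ 2 ^ 3 := Nat.pow_le_pow_left (by omega) 3
      nlinarith
    have hk3 : C₀ * (8 * k ^ 3) ≤ n := by
      have h1 : ¬ (C₀ * (8 * (k - 1 + 1) ^ 3) > n) := Nat.find_min hex (by omega)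
      have h2 : k - 1 + 1 = k := by omega
      rw [h2] at h1
      omega
    have hd8 : 8 ≤ 4 * k ^ 3 := by
      have : 2 ^ 3 ≤ k ^ 3 := Nat.pow_le_pow_left hk2 3
      omega
    have hkR : (2 : ℝ) ≤ k := by exact_mod_cast hk2
    have hn1 : (n : ℝ) ≤ C₀ * (8 * ((k : ℝ) + 1) ^ 3) := by exact_mod_cast hk1.le
    have hn2 : (n : ℝ) ≤ C₀ * (27 * (k : ℝ) ^ 3) := by
      refine le_trans hn1 ?_
      apply mul_le_mul_of_nonneg_left _ (by positivity)
      have h1 : 2 * ((k : ℝ) + 1) ≤ 3 * k := by linarith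
      have h2 : (2 * ((k : ℝ) + 1)) ^ 3 ≤ (3 * k) ^ 3 := pow_le_pow_left₀ (by positivity) h1 3
      calc 8 * ((k : ℝ) + 1) ^ 3 = (2 * ((k : ℝ) + 1)) ^ 3 := by ring
        _ ≤ (3 * (k : ℝ)) ^ 3 := h2
        _ = 27 * (k : ℝ) ^ 3 := by ring
    have hk0 : (0 : ℝ) < (k : ℝ) ^ 3 := by positivity
    have hnpos : 0 < n := by omega
    have hnR : (0 : ℝ) < n := by exact_mod_cast hnpos
    set d : ℕ := 4 * k ^ 3 with hd
    have hdR : (d : ℝ) = 4 * (k : ℝ) ^ 3 := by rw [hd]; push_cast; ring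
    set N4 : ℕ := (2 * d - 1) * (2 * d) + 4 with hN4
    have hN4R : 2 * (d : ℝ) ^ 2 ≤ N4 := by
      have h1 : 2 * d ^ 2 ≤ N4 := by
        have : d * (2 * d) ≤ (2 * d - 1) * (2 * d) :=
          Nat.mul_le_mul (by omega) le_rfl
        rw [hN4]
        nlinarith
      exact_mod_cast h1
    have hN4pos : (0 : ℝ) < N4 := by
      have : 0 < N4 := by rw [hN4]; omega
      exact_mod_cast this
    -- n ^ 2 in terms of N4
    have hnN : 32 * (n : ℝ) ^ 2 ≤ 729 * (C₀ : ℝ) ^ 2 * N4 := by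
      have h1 : (n : ℝ) ^ 2 ≤ (C₀ * (27 * (k : ℝ) ^ 3)) ^ 2 := pow_le_pow_left₀ (by positivity) hn2 2
      have h2 : (C₀ * (27 * (k : ℝ) ^ 3)) ^ 2 = 729 * (C₀ : ℝ) ^ 2 * ((k : ℝ) ^ 3) ^ 2 := by ring
      have h3 : 32 * ((k : ℝ) ^ 3) ^ 2 ≤ N4 := by
        have : 2 * (d : ℝ) ^ 2 = 32 * ((k : ℝ) ^ 3) ^ 2 := by rw [hdR]; ring
        linarith
      have h4 : (0 : ℝ) ≤ 729 * (C₀ : ℝ) ^ 2 := by positivity
      nlinarith [mul_le_mul_of_nonneg_left h3 h4]
    have key0 := H (2 * k) d (by omega) (by rw [hd]; ring) (by omega)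
      (by rw [mul_pow]; norm_num; exact hk3)
    set X : ℝ := Real.exp 1 * (e + 1) * (24 * m / (N4 : ℝ) + 5) with hX
    have he : (0 : ℝ) < Real.exp 1 := Real.exp_pos 1
    have hX0 : 0 ≤ X := by positivity
    set Y : ℝ := 11 * Real.exp 1 * (e + 1) with hY
    have hY0 : 0 ≤ Y := by positivity
    set Z : ℝ := Y ^ ((L : ℝ) / (N4 : ℝ)) with hZ
    have hZ0 : 0 ≤ Z := Real.rpow_nonneg hY0 _
    have hZN : Z ^ N4 = Y ^ L := by
      rw [hZ, ← Real.rpow_natCast, ← Real.rpow_mul hY0, div_mul_cancel₀ _ hN4pos.ne',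
        Real.rpow_natCast]
    have key1 : (d.factorial : ℝ) ^ (2 * (2 * d - 1)) ≤ (X * Z) ^ N4 := by
      rw [mul_pow, hZN]
      exact key0
    have key2 : (d : ℝ) / (2 * Real.exp 1) ≤ X * Z :=
      root_le hd8 (mul_nonneg hX0 hZ0) key1
    have he1 : Real.exp 1 < 2.7182818286 := Real.exp_one_lt_d9
    have he2 : 2.7182818283 < Real.exp 1 := Real.exp_one_gt_d9
    -- the bound of Z
    have hZW : Z ≤ W := by
      have h1 : Y ≤ (2 * (e + 1) : ℝ) ^ (5 : ℝ) := by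
        rw [show (5 : ℝ) = ((5 : ℕ) : ℝ) by norm_num, Real.rpow_natCast]
        have h2 : (1 : ℝ) ≤ (e + 1) ^ 4 := one_le_pow₀ (by linarith)
        have h3 : Y ≤ 32 * (e + 1) := by
          rw [hY]
          nlinarith
        calc Y ≤ 32 * (e + 1) := h3
          _ = 32 * (e + 1) * 1 := by ring
          _ ≤ 32 * (e + 1) * (e + 1) ^ 4 := mul_le_mul_of_nonneg_left h2 (by positivity)
          _ = (2 * (e + 1) : ℝ) ^ 5 := by ring
      calc Z ≤ ((2 * (e + 1) : ℝ) ^ (5 : ℝ)) ^ ((L : ℝ) / (N4 : ℝ)) :=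
            Real.rpow_le_rpow hY0 h1 (by positivity)
        _ = (2 * (e + 1) : ℝ) ^ ((5 : ℝ) * ((L : ℝ) / (N4 : ℝ))) :=
            (Real.rpow_mul (by positivity) _ _).symm
        _ ≤ W := by
            apply Real.rpow_le_rpow_of_exponent_le h2E
            have h2 : (5 : ℝ) * ((L : ℝ) / (N4 : ℝ)) = L * (5 / N4) := by ring
            have h3 : (L : ℝ) / (c * (n : ℝ) ^ 2) = L * (1 / (c * (n : ℝ) ^ 2)) := by ring
            rw [h2, h3]
            apply mul_le_mul_of_nonneg_left _ (by positivity)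
            rw [div_le_div_iff₀ hN4pos (by positivity), one_mul, hc]
            have h4 : 5 * (1 / (262144 * (C₀ : ℝ) ^ 3) * (n : ℝ) ^ 2) =
                (5 * (n : ℝ) ^ 2) / (262144 * (C₀ : ℝ) ^ 3) := by ring
            rw [h4, div_le_iff₀ (by positivity)]
            have h5 : (C₀ : ℝ) ^ 2 ≤ (C₀ : ℝ) ^ 3 := pow_le_pow_right₀ hCR (by norm_num)
            have h6 : (C₀ : ℝ) ^ 2 * N4 ≤ (C₀ : ℝ) ^ 3 * N4 :=
              mul_le_mul_of_nonneg_right h5 hN4pos.le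
            nlinarith
    -- the bound of X
    have hXb : X * (n : ℝ) ^ 2 ≤ Real.exp 1 * (e + 1) * (552 * (C₀ : ℝ) ^ 2 * mm) := by
      have h1 : (24 * m / (N4 : ℝ) + 5) * (n : ℝ) ^ 2 ≤ 552 * (C₀ : ℝ) ^ 2 * mm := by
        have h2 : (24 * m / (N4 : ℝ)) * (n : ℝ) ^ 2 ≤ 547 * (C₀ : ℝ) ^ 2 * mm := by
          rw [div_mul_eq_mul_div, div_le_iff₀ hN4pos]
          have h3 : (m : ℝ) * (32 * (n : ℝ) ^ 2) ≤ mm * (729 * (C₀ : ℝ) ^ 2 * N4) :=
            mul_le_mul hmm1 hnN (by positivity) (by positivity)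
          have h4 : (0 : ℝ) ≤ mm * ((C₀ : ℝ) ^ 2 * N4) := by positivity
          nlinarith
        have h3 : 5 * (n : ℝ) ^ 2 ≤ 5 * (C₀ : ℝ) ^ 2 * mm := by
          have h4 : (1 : ℝ) ≤ (C₀ : ℝ) ^ 2 := one_le_pow₀ hCR
          have h5 : (n : ℝ) ^ 2 ≤ (C₀ : ℝ) ^ 2 * mm := by
            calc (n : ℝ) ^ 2 ≤ mm := hmm2
              _ = 1 * mm := (one_mul _).symm
              _ ≤ (C₀ : ℝ) ^ 2 * mm := mul_le_mul_of_nonneg_right h4 (by positivity)
          linarith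
        rw [add_mul]
        linarith
      calc X * (n : ℝ) ^ 2 = Real.exp 1 * (e + 1) * ((24 * m / (N4 : ℝ) + 5) * (n : ℝ) ^ 2) := by
            rw [hX]; ring
        _ ≤ Real.exp 1 * (e + 1) * (552 * (C₀ : ℝ) ^ 2 * mm) :=
            mul_le_mul_of_nonneg_left h1 (by positivity)
    -- conclusion
    have h7 : (d : ℝ) * (n : ℝ) ^ 2 ≤ 8280 * (C₀ : ℝ) ^ 2 * (mm * (e + 1) * W) := by
      rw [div_le_iff₀ (by positivity)] at key2
      have h8 : X * Z ≤ X * W := mul_le_mul_of_nonneg_left hZW hX0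
      have h9 : (d : ℝ) ≤ X * W * (2 * Real.exp 1) :=
        key2.trans (mul_le_mul_of_nonneg_right h8 (by positivity))
      have h16 : Real.exp 1 ^ 2 ≤ 7.5 := by nlinarith
      calc (d : ℝ) * (n : ℝ) ^ 2 ≤ X * W * (2 * Real.exp 1) * (n : ℝ) ^ 2 :=
            mul_le_mul_of_nonneg_right h9 (by positivity)
        _ = (X * (n : ℝ) ^ 2) * (W * (2 * Real.exp 1)) := by ring
        _ ≤ (Real.exp 1 * (e + 1) * (552 * (C₀ : ℝ) ^ 2 * mm)) * (W * (2 * Real.exp 1)) :=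
            mul_le_mul_of_nonneg_right hXb (by positivity)
        _ = Real.exp 1 ^ 2 * (1104 * (C₀ : ℝ) ^ 2 * (mm * (e + 1) * W)) := by ring
        _ ≤ 7.5 * (1104 * (C₀ : ℝ) ^ 2 * (mm * (e + 1) * W)) :=
            mul_le_mul_of_nonneg_right h16 (by positivity)
        _ = 8280 * (C₀ : ℝ) ^ 2 * (mm * (e + 1) * W) := by ring
    have h8 : (n : ℝ) ≤ C₀ * (27 / 4 * d) := by
      rw [hdR]
      linarith
    rw [hc, one_div, inv_mul_le_iff₀ (by positivity)]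
    have h9 : (0 : ℝ) ≤ mm * (e + 1) * W := by positivity
    calc (n : ℝ) ^ 3 = n * (n : ℝ) ^ 2 := by ring
      _ ≤ (C₀ * (27 / 4 * d)) * (n : ℝ) ^ 2 := mul_le_mul_of_nonneg_right h8 (by positivity)
      _ = 27 / 4 * C₀ * (d * (n : ℝ) ^ 2) := by ring
      _ ≤ 27 / 4 * C₀ * (8280 * (C₀ : ℝ) ^ 2 * (mm * (e + 1) * W)) :=
          mul_le_mul_of_nonneg_left h7 (by positivity)
      _ = 55890 * ((C₀ : ℝ) ^ 3 * (mm * (e + 1) * W)) := by ring
      _ ≤ 262144 * ((C₀ : ℝ) ^ 3 * (mm * (e + 1) * W)) := by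
          apply mul_le_mul_of_nonneg_right (by norm_num) (by positivity)
      _ = 262144 * (C₀ : ℝ) ^ 3 * (mm * (e + 1) * W) := by ring

end Pool.HY
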