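import Pool.Agent.Helper97.HY.Defs

/-!
# Pfaffians of computed polynomials: representation by polynomials in the values of the program,
substitution, degree (MP_381749_lc)
-/

set_option autoImplicit false

namespace Pool.HY

open MvPolynomial Pool.CD Pool.PF

/-- the polynomials of degree at most `d` in a subalgebra -/
noncomputable def Td {σ' : Type} (B : Subalgebra ℂ (MvPolynomial σ' ℂ)) (d : ℕ) :
    Submodule ℂ (MvPolynomial σ' ℂ) :=
  restrictTotalDegree σ' ℂ d ⊓ Subalgebra.toSubmodule B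

theorem mem_Td {σ' : Type} {B : Subalgebra ℂ (MvPolynomial σ' ℂ)} {d : ℕ}
    {F : MvPolynomial σ' ℂ} : F ∈ Td B d ↔ F.totalDegree ≤ d ∧ F ∈ B := by
  rw [Td, Submodule.mem_inf, mem_restrictTotalDegree, Subalgebra.mem_toSubmodule]

theorem Td_pow {σ' : Type} (B : Subalgebra ℂ (MvPolynomial σ' ℂ)) (d : ℕ) :
    Td B 1 ^ d ≤ Td B d := by
  induction d with
  | zero =>
    rw [pow_zero, Submodule.one_le, mem_Td]
    exact ⟨by simp, B.one_mem⟩
  | succ d ih =>
    rw [pow_succ, Submodule.mul_le]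
    intro x hx y hy
    have hx' := mem_Td.1 (ih hx)
    have hy' := mem_Td.1 hy
    exact mem_Td.2 ⟨(totalDegree_mul _ _).trans (Nat.add_le_add hx'.1 hy'.1),
      B.mul_mem hx'.2 hy'.2⟩

/-- general form of the representation -/
theorem Pol_rep' {σ σ' : Type} (φ : MvPolynomial σ' ℂ →ₐ[ℂ] MvPolynomial σ ℂ)
    (B : Subalgebra ℂ (MvPolynomial σ' ℂ)) (S : Set (MvPolynomial σ ℂ))
    (hS : ∀ s ∈ S, ∃ F ∈ B, F.totalDegree ≤ 1 ∧ φ F = s) (d : ℕ) {x : MvPolynomial σ ℂ}
    (hx : x ∈ Pol S d) : ∃ F ∈ B, F.totalDegree ≤ d ∧ φ F = x := by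
  have h1 : Submodule.span ℂ ({1} ∪ S) ≤ (Td B 1).map φ.toLinearMap := by
    rw [Submodule.span_le]
    rintro s (hs | hs)
    · rw [Set.mem_singleton_iff] at hs
      subst hs
      exact ⟨1, mem_Td.2 ⟨by simp, B.one_mem⟩, by simp⟩
    · obtain ⟨F, hF, hd, rfl⟩ := hS s hs
      exact ⟨F, mem_Td.2 ⟨hd, hF⟩, rfl⟩
  have h2 : Pol S d ≤ (Td B d).map φ.toLinearMap := by
    unfold Pol
    refine (pow_le_pow_left' h1 d).trans ?_
    rw [← Submodule.map_pow]
    exact Submodule.map_mono (Td_pow B d)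
  obtain ⟨F, hF, hFx⟩ := h2 hx
  have := mem_Td.1 hF
  exact ⟨F, this.2, this.1, hFx⟩

theorem Pol_rep {σ : Type} {L : ℕ} (g : Fin L → MvPolynomial σ ℂ) (d : ℕ) {x : MvPolynomial σ ℂ}
    (hx : x ∈ Pol (Set.range X ∪ Set.range g) d) : ∃ F : MvPolynomial (σ ⊕ Fin L) ℂ,
      F.totalDegree ≤ d ∧ aeval (Sum.elim X g) F = x := by
  obtain ⟨F, _, h1, h2⟩ := Pol_rep' (aeval (Sum.elim X g)) ⊤ (Set.range X ∪ Set.range g) (by
    rintro s (⟨a, rfl⟩ | ⟨j, rfl⟩)
    · exact ⟨X (Sum.inl a), trivial, by simp, by simp⟩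
    · exact ⟨X (Sum.inr j), trivial, by simp, by simp⟩) d hx
  exact ⟨F, h1, h2⟩

/-- the polynomials which do not contain the variables `inr i`, `j ≤ i` -/
noncomputable def Bj (σ : Type) (L : ℕ) (j : Fin L) :
    Subalgebra ℂ (MvPolynomial (σ ⊕ Fin L) ℂ) where
  carrier := {F | ∀ i, j ≤ i → pderiv (Sum.inr i) F = 0}
  mul_mem' := by
    intro a b ha hb i hi
    rw [Derivation.leibniz, ha i hi, hb i hi, smul_zero, smul_zero, add_zero]
  add_mem' := by
    intro a b ha hb i hi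
    rw [map_add, ha i hi, hb i hi, add_zero]
  algebraMap_mem' := by
    intro c i _
    exact pderiv_C

theorem Prog_rep {σ : Type} {L d : ℕ} {g : Fin L → MvPolynomial σ ℂ} (hg : Prog d g) :
    ∃ F : Fin L → MvPolynomial (σ ⊕ Fin L) ℂ, (∀ j, (F j).totalDegree ≤ d) ∧
      (∀ j i, j ≤ i → pderiv (Sum.inr i) (F j) = 0) ∧
      ∀ j, aeval (Sum.elim X g) (F j) = g j := by
  have h : ∀ j, ∃ F ∈ Bj σ L j, F.totalDegree ≤ d ∧ aeval (Sum.elim X g) F = g j := by
    intro j
    refine Pol_rep' (aeval (Sum.elim X g)) (Bj σ L j) (Set.range X ∪ g '' Set.Iio j) ?_ d (hg j)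
    rintro s (⟨a, rfl⟩ | ⟨i, hi, rfl⟩)
    · refine ⟨X (Sum.inl a), ?_, by simp, by simp⟩
      intro i' _
      exact pderiv_X_of_ne (by simp)
    · refine ⟨X (Sum.inr i), ?_, by simp, by simp⟩
      intro i' hi'
      refine pderiv_X_of_ne ?_
      intro e
      have e' : i = i' := by simpa using e
      subst e'
      exact absurd hi (not_lt.2 hi')
  choose F h1 h2 h3 using h
  exact ⟨F, h2, h1, h3⟩

theorem Pol_smul {σ : Type} {S : Set (MvPolynomial σ ℂ)} {d : ℕ} {x : MvPolynomial σ ℂ} (c : ℂ)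
    (h : x ∈ Pol S d) : c • x ∈ Pol S d := (Pol S d).smul_mem c h

/-- a polynomial of degree at most one is an affine combination of the variables -/
theorem mem_span_of_deg {τ : Type} {P : MvPolynomial τ ℂ} (h : P.totalDegree ≤ 1) :
    P ∈ Submodule.span ℂ ({1} ∪ Set.range (X : τ → MvPolynomial τ ℂ)) := by
  rw [P.as_sum]
  refine Submodule.sum_mem _ fun s hs => ?_
  have hd : (s.sum fun _ e => e) ≤ 1 := (le_totalDegree hs).trans h
  rw [← mul_one (coeff s P), ← smul_eq_mul, ← smul_monomial]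
  refine Submodule.smul_mem _ _ (Submodule.subset_span ?_)
  have hs1 : s.degree ≤ 1 := by simpa [Finsupp.degree, Finsupp.sum] using hd
  rcases Nat.le_one_iff_eq_zero_or_eq_one.1 hs1 with h0 | h1
  · left
    rw [(Finsupp.degree_eq_zero_iff s).1 h0]
    rfl
  · right
    have hne : s ≠ 0 := by
      rintro rfl
      simp at h1
    obtain ⟨a, ha⟩ := Finsupp.ne_iff.1 hne
    refine ⟨a, ?_⟩
    have hle : Finsupp.single a 1 ≤ s := by
      rw [Finsupp.single_le_iff]
      exact Nat.one_le_iff_ne_zero.2 ha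
    obtain ⟨r, hr⟩ := exists_add_of_le hle
    have hr0 : r = 0 := by
      rw [← Finsupp.degree_eq_zero_iff]
      have := congrArg Finsupp.degree hr
      rw [map_add, Finsupp.degree_single, h1] at this
      omega
    rw [hr, hr0, add_zero]
    rfl

theorem Pol_subst {σ τ : Type} {S : Set (MvPolynomial σ ℂ)} {d : ℕ} {x : MvPolynomial σ ℂ}
    (h : x ∈ Pol (Set.range X ∪ S) d) (f : σ → MvPolynomial τ ℂ)
    (hf : ∀ s, (f s).totalDegree ≤ 1) : aeval f x ∈ Pol (Set.range X ∪ aeval f '' S) d := by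
  have h1 : (Submodule.span ℂ ({1} ∪ (Set.range X ∪ S))).map (aeval f : MvPolynomial σ ℂ →ₐ[ℂ]
      MvPolynomial τ ℂ).toLinearMap ≤
      Submodule.span ℂ ({1} ∪ (Set.range X ∪ aeval f '' S)) := by
    rw [Submodule.map_span_le]
    rintro s (hs | ⟨a, rfl⟩ | hs)
    · rw [Set.mem_singleton_iff] at hs
      subst hs
      simp only [AlgHom.toLinearMap_apply, map_one]
      exact Submodule.subset_span (Or.inl rfl)
    · simp only [AlgHom.toLinearMap_apply, aeval_X]
      refine Submodule.span_mono ?_ (mem_span_of_deg (hf a))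
      exact Set.union_subset_union_right _ Set.subset_union_left
    · simp only [AlgHom.toLinearMap_apply]
      exact Submodule.subset_span (Or.inr (Or.inr ⟨s, hs, rfl⟩))
  unfold Pol at h ⊢
  have h2 := Submodule.mem_map_of_mem (f := (aeval f : MvPolynomial σ ℂ →ₐ[ℂ]
      MvPolynomial τ ℂ).toLinearMap) h
  rw [Submodule.map_pow] at h2
  exact pow_le_pow_left' h1 d h2

theorem HRep.subst {m δ L : ℕ} {σ τ : Type} {P : MvPolynomial σ ℂ} (h : HRep m δ L P)
    (f : σ → MvPolynomial τ ℂ) (hf : ∀ s, (f s).totalDegree ≤ 1) :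
    HRep m δ L (aeval f P) := by
  obtain ⟨g, hg, A, hA, rfl⟩ := h
  refine ⟨fun j => aeval f (g j), fun j => ?_, A.map (aeval f), fun i j => ?_, ?_⟩
  · have := Pol_subst (hg j) f hf
    rwa [Set.image_image] at this
  · rw [Matrix.map_apply]
    have := Pol_subst (hA i j) f hf
    rwa [← Set.range_comp] at this
  · exact map_pf ((aeval f : MvPolynomial σ ℂ →ₐ[ℂ] MvPolynomial τ ℂ) :
      MvPolynomial σ ℂ →+* MvPolynomial τ ℂ) m A

/-- degrees -/
theorem Pol_deg {σ : Type} {S : Set (MvPolynomial σ ℂ)} {d D : ℕ} (hD : 1 ≤ D)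
    (hS : ∀ s ∈ S, s.totalDegree ≤ D) {x : MvPolynomial σ ℂ}
    (h : x ∈ Pol (Set.range X ∪ S) d) : x.totalDegree ≤ d * D := by
  have h1 : Submodule.span ℂ ({1} ∪ (Set.range X ∪ S)) ≤ restrictTotalDegree σ ℂ D := by
    rw [Submodule.span_le]
    rintro s (hs | ⟨a, rfl⟩ | hs)
    · rw [Set.mem_singleton_iff] at hs
      subst hs
      exact (mem_restrictTotalDegree σ D 1).2 (by simp)
    · exact (mem_restrictTotalDegree σ D _).2 (by rw [totalDegree_X]; exact hD)
    · exact (mem_restrictTotalDegree σ D _).2 (hS s hs)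
  have h2 : ∀ d, restrictTotalDegree σ ℂ D ^ d ≤ restrictTotalDegree σ ℂ (d * D) := by
    intro d
    induction d with
    | zero =>
      rw [pow_zero, Submodule.one_le, mem_restrictTotalDegree]
      simp
    | succ d ih =>
      rw [pow_succ, Submodule.mul_le]
      intro x hx y hy
      have hx' := (mem_restrictTotalDegree σ _ _).1 (ih hx)
      have hy' := (mem_restrictTotalDegree σ _ _).1 hy
      rw [mem_restrictTotalDegree, add_mul, one_mul]
      exact (totalDegree_mul _ _).trans (Nat.add_le_add hx' hy')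
  unfold Pol at h
  exact (mem_restrictTotalDegree σ _ _).1 (h2 d (pow_le_pow_left' h1 d h))

theorem Prog_deg {σ : Type} {L d : ℕ} (hd : 1 ≤ d) {g : Fin L → MvPolynomial σ ℂ}
    (hg : Prog d g) : ∀ (n : ℕ) (j : Fin L), (j : ℕ) ≤ n → (g j).totalDegree ≤ d ^ (n + 1) := by
  intro n
  induction n with
  | zero =>
    intro j hj
    have h := Pol_deg (S := g '' Set.Iio j) (D := 1) le_rfl (by
      rintro s ⟨i, hi, rfl⟩
      have : (i : ℕ) < j := hi
      omega) (hg j)
    simpa using h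
  | succ n ih =>
    intro j hj
    have h := Pol_deg (S := g '' Set.Iio j) (D := d ^ (n + 1)) (Nat.one_le_pow _ _ hd) (by
      rintro s ⟨i, hi, rfl⟩
      have : (i : ℕ) < j := hi
      exact ih i (by omega)) (hg j)
    rw [pow_succ' d (n + 1)]
    exact h

theorem HRep.deg {m δ L : ℕ} {σ : Type} {P : MvPolynomial σ ℂ} (h : HRep m δ L P) :
    P.totalDegree ≤ m * (δ * (δ + 1) ^ L) := by
  obtain ⟨g, hg, A, hA, rfl⟩ := h
  refine totalDegree_pf_le _ m A fun i j => ?_
  refine Pol_deg (S := Set.range g) (Nat.one_le_pow _ _ (Nat.succ_pos δ)) ?_ (hA i j)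
  rintro s ⟨k, rfl⟩
  have hk := k.2
  have h1 := Prog_deg (Nat.succ_pos δ) hg (L - 1) k (by omega)
  rwa [Nat.sub_add_cancel (by omega)] at h1

/-- the class -/
noncomputable def HCls (m δ L : ℕ) : Cls where
  mem := fun {_} P => HRep m δ L P
  deg := m * (δ * (δ + 1) ^ L)
  subst := fun _ f h hf => h.subst f hf
  le := fun _ h => h.deg

end Pool.HY
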