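import Pool.Agent.Helper97.HY.Crit
import Pool.Agent.Helper97.HY.Rep
import Pool.Agent.Helper97.HY.Num

/-!
# Critical points of Pfaffians of computed entries: the bound (MP_381749_lc)
-/

set_option autoImplicit false

namespace Pool.HY

open Finset MvPolynomial Pool.Agent.Helper24.SQ Pool.PF Pool.CD

theorem HRep.alt {m δ L : ℕ} {σ : Type} {P : MvPolynomial σ ℂ} (h : HRep m δ L P) :
    ∃ g : Fin L → MvPolynomial σ ℂ, Prog (δ + 1) g ∧
    ∃ A : Matrix (Fin (2 * m)) (Fin (2 * m)) (MvPolynomial σ ℂ),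
      (∀ i j, A i j ∈ Pol (Set.range X ∪ Set.range g) δ) ∧ IsAlt A ∧ P = pf m A := by
  obtain ⟨g, hg, A, hA, hP⟩ := h
  refine ⟨g, hg, Matrix.of fun i j => if i < j then A i j else if j < i then -A j i else 0, ?_,
    ⟨fun i j => ?_, fun i => ?_⟩, ?_⟩
  · intro i j
    rw [Matrix.of_apply]
    split_ifs
    · exact hA _ _
    · exact Submodule.neg_mem _ (hA _ _)
    · exact Submodule.zero_mem _
  · simp only [Matrix.of_apply]
    rcases lt_trichotomy i j with h | h | h
    · rw [if_pos h, if_neg h.not_gt, if_pos h, neg_neg]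
    · subst h
      simp
    · rw [if_neg h.not_gt, if_pos h, if_pos h]
  · simp
  · rw [hP]
    apply pf_congr
    intro i j hij
    rw [Matrix.of_apply, if_pos hij]

/-- number of nondegenerate critical points -/
theorem h_crit_bound {ι : Type} [Fintype ι] (m e L : ℕ) (P : MvPolynomial (Option ι) ℂ)
    (hP : HRep m (e + 1) L P) (Z : Finset (Option ι → ℂ)) (hZ : ∀ z ∈ Z, CritPt P z) :
    (Z.card : ℝ) ≤ (Real.exp 1 * (e + 1) * (24 * m / (Fintype.card ι + 4 : ℕ) + 5)) ^
      (Fintype.card ι + 4) * (11 * Real.exp 1 * (e + 1)) ^ L := by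
  classical
  rcases Z.eq_empty_or_nonempty with rfl | ⟨z₀, hz₀⟩
  · rw [card_empty, Nat.cast_zero]
    positivity
  obtain ⟨g, hg, A, hA, halt, hPA⟩ := hP.alt
  have hP0 : P ≠ 0 := by
    rintro rfl
    exact (hZ z₀ hz₀).2.2.1 (by simp)
  rcases m with _ | k
  · exfalso
    have h1 := (hZ z₀ hz₀).1
    rw [hPA, pf_zero, map_one] at h1
    exact one_ne_zero h1
  obtain ⟨F, hF1, hF2, hF3⟩ := Prog_rep hg
  have hA' : ∀ i j, ∃ a : MvPolynomial (Option ι ⊕ Fin L) ℂ, a.totalDegree ≤ e + 1 ∧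
      aeval (Sum.elim X g) a = A i j := fun i j => Pol_rep g (e + 1) (hA i j)
  choose A₁ hA1 hA2 using hA'
  have hcomp : comp (Sum.elim X g) (Matrix.of A₁) = A := by
    ext1 i j
    exact hA2 i j
  obtain ⟨B, hAB⟩ := exists_padj k A halt
  rw [← hPA] at hAB
  have hdet : A.det = P ^ 2 := by rw [hPA, pf_sq halt]
  have skA : A.transpose = -A := by
    ext1 i j
    rw [Matrix.transpose_apply, Matrix.neg_apply]
    exact halt.1 j i
  have H : PD (comp (Sum.elim X g) (Matrix.of A₁)) B P := by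
    rw [hcomp]
    exact ⟨skA, padj_skew hAB hdet hP0 skA, hAB, padj_mul hAB hdet hP0,
      fun v => padj_deriv (pderiv v) hAB hdet hP0⟩
  have hb := hcrit_card (K := ℂ) (ν := ι) (L := L) (e := e) ⟨hF2, hF3⟩ H
    (fun a b => hA1 a b) hF1 (ι := Z) (fun z => (z : Option ι → ℂ))
    Subtype.val_injective (fun z => (hZ z z.2).1) (fun z => (hZ z z.2).2.1)
    (fun z => (hZ z z.2).2.2.1) (fun z => (hZ z z.2).2.2.2)
  rw [Fintype.card_coe, Fintype.card_fin] at hb
  have e1 : 2 * (2 * (k + 1)) = 4 * (k + 1) := by ring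
  rw [e1] at hb
  have := num_bound3 Z.card (k + 1) (Fintype.card ι + 4) L e (by omega) (by omega) hb
  exact this

end Pool.HY
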