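import Pool.Agent.Helper97.HY.Rep

/-!
# The chain lemma for Pfaffians of computed polynomials (MP_381749_lc)

If a nonzero multiple of `P` (not a unit) is a limit of multiples of Pfaffians of size `2 m` whose
entries are polynomials of degree at most `δ` in the variables and the values of a program of
length `L`, then for some `1 ≤ j ≤ m` there are `G1`, `G2` such that `P` divides `G1 ≠ 0`, `P` does
not divide `G2`, and `G1 + t G2` is a limit of such Pfaffians of size `2 j` for every constant `t`.
-/

set_option autoImplicit false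

namespace Pool.HY

open MvPolynomial Pool.CD Pool.PF Filter

variable {σ : Type}

theorem hRep_sub {k δ L : ℕ} {g : Fin L → MvPolynomial σ ℂ} (hg : Prog (δ + 1) g)
    (A : Matrix (Fin (2 * (k + 1))) (Fin (2 * (k + 1))) (MvPolynomial σ ℂ))
    (hA : ∀ i j, A i j ∈ Pol (Set.range X ∪ Set.range g) δ) (j : Fin (2 * k + 1)) :
    HRep k δ L (pf k (A.submatrix (fun i => (j.succAbove i).succ)
      (fun i => (j.succAbove i).succ))) :=
  ⟨g, hg, _, fun _ _ => hA _ _, rfl⟩

/-- scaling of the first row -/
theorem pf_smul_row {k : ℕ}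
    (A : Matrix (Fin (2 * (k + 1))) (Fin (2 * (k + 1))) (MvPolynomial σ ℂ)) (c : ℂ) :
    pf (k + 1) (A.updateRow 0 (fun j => c • A 0 j)) = c • pf (k + 1) A := by
  rw [RQ.pf_row, pf_succ, Finset.smul_sum]
  refine Finset.sum_congr rfl fun j _ => ?_
  simp only [MvPolynomial.smul_eq_C_mul]
  ring

/-- a limit of Pfaffians of size `0` is a constant -/
theorem Lim.zero {δ L : ℕ} {G : MvPolynomial σ ℂ} (h : Lim 0 δ L G) : G = C (coeff 0 G) := by
  classical
  ext s
  rw [coeff_C]
  split_ifs with hs
  · rw [← hs]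
  · by_contra hne
    obtain ⟨Q, c, ⟨g, _, A, _, hQ⟩, hc⟩ := h ‖coeff s G‖ (norm_pos_iff.2 hne)
    have h1 := hc s
    rw [hQ, pf_zero, coeff_smul, coeff_one, if_neg hs, smul_zero, zero_sub, norm_neg] at h1
    exact lt_irrefl _ h1

/-- **the chain lemma** -/
theorem chain [Fintype σ] (P : MvPolynomial σ ℂ) (hP : ¬ IsUnit P) (δ L : ℕ) :
    ∀ (m : ℕ) (G : MvPolynomial σ ℂ), G ≠ 0 → P ∣ G → Lim m δ L G →
      ∃ j, 1 ≤ j ∧ j ≤ m ∧ ∃ G1 G2 : MvPolynomial σ ℂ, G1 ≠ 0 ∧ P ∣ G1 ∧ ¬ (P ∣ G2) ∧
        ∀ t : ℂ, RQ.Near (HCls j δ L) (G1 + t • G2) := by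
  intro m
  induction m with
  | zero =>
    intro G hG hPG hL
    exfalso
    have h1 := hL.zero
    have h2 : coeff 0 G ≠ 0 := by
      intro h0
      rw [h0, C_0] at h1
      exact hG h1
    apply hP
    refine isUnit_of_dvd_unit hPG ?_
    rw [h1]
    exact (IsUnit.mk0 _ h2).map C
  | succ k ih =>
    intro G hG hPG hL
    have hN : ∀ N : ℕ, ∃ (g : Fin L → MvPolynomial σ ℂ)
        (A : Matrix (Fin (2 * (k + 1))) (Fin (2 * (k + 1))) (MvPolynomial σ ℂ)),
        Prog (δ + 1) g ∧ (∀ i j, A i j ∈ Pol (Set.range X ∪ Set.range g) δ) ∧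
        ∀ s, ‖coeff s (pf (k + 1) A) - coeff s G‖ < 1 / ((N : ℝ) + 1) := by
      intro N
      obtain ⟨Q, c, ⟨g, hg, A, hA, hQ⟩, hc⟩ := hL (1 / ((N : ℝ) + 1)) Nat.one_div_pos_of_nat
      refine ⟨g, A.updateRow 0 (fun j => c • A 0 j), hg, fun i j => ?_, fun s => ?_⟩
      · rcases eq_or_ne i 0 with rfl | hi
        · rw [Matrix.updateRow_self]
          exact Pol_smul c (hA 0 j)
        · rw [Matrix.updateRow_ne hi]
          exact hA i j
      · rw [pf_smul_row, ← hQ]
        exact hc s
    choose g A hg hA hAc using hN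
    set D : Fin (2 * k + 1) → ℕ → MvPolynomial σ ℂ := fun j N =>
      pf k ((A N).submatrix (fun i => (j.succAbove i).succ) (fun i => (j.succAbove i).succ))
      with hD
    -- some `D j` is nonzero infinitely often
    have hex : ∃ j, ∃ᶠ N in atTop, D j N ≠ 0 := by
      by_contra hcon
      push Not at hcon
      have h2 : ∀ᶠ N in atTop, ∀ j, D j N = 0 := eventually_all.2 hcon
      obtain ⟨s, hs⟩ := MvPolynomial.ne_zero_iff.1 hG
      obtain ⟨N₁, hN₁⟩ := exists_nat_one_div_lt (norm_pos_iff.2 hs)
      obtain ⟨N, hN, hN'⟩ := (h2.and (eventually_ge_atTop N₁)).exists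
      have h3 : pf (k + 1) (A N) = 0 := by
        rw [pf_succ]
        exact Finset.sum_eq_zero fun j _ => by
          have := hN j
          simp only [hD] at this
          rw [this, mul_zero]
      have h4 := hAc N s
      rw [h3, coeff_zero, zero_sub, norm_neg] at h4
      have h5 : 1 / ((N : ℝ) + 1) ≤ 1 / ((N₁ : ℝ) + 1) := by
        apply one_div_le_one_div_of_le
        · positivity
        · have : (N₁ : ℝ) ≤ N := by exact_mod_cast hN'
          linarith
      linarith
    obtain ⟨j, hj⟩ := hex
    obtain ⟨ψ, hψ, hψ0⟩ := extraction_of_frequently_atTop hj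
    obtain ⟨c, φ, G', hφ, hG', hlim⟩ := RQ.compact_norm (k * (δ * (δ + 1) ^ L))
      (fun N => D j (ψ N)) (fun N => (hRep_sub (hg _) (A (ψ N)) (hA _) j).deg) hψ0
    by_cases hPG' : P ∣ G'
    · obtain ⟨i, hi1, hi2, h⟩ := ih G' hG' hPG' (by
        intro ε hε
        obtain ⟨N₀, hN₀⟩ := hlim ε hε
        exact ⟨D j (ψ (φ N₀)), c (φ N₀), hRep_sub (hg _) _ (hA _) j, hN₀ N₀ le_rfl⟩)
      exact ⟨i, hi1, hi2.trans (Nat.le_succ k), h⟩
    · refine ⟨k + 1, by omega, le_rfl, G, G', hG, hPG, hPG', fun t ε hε => ?_⟩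
      obtain ⟨N₀, hN₀⟩ := hlim (ε / 2 / (‖t‖ + 1)) (by positivity)
      obtain ⟨N₁, hN₁⟩ := exists_nat_one_div_lt (half_pos hε)
      set N := max N₀ N₁ with hNdef
      set M := ψ (φ N) with hM
      have hM1 : N₁ ≤ M := by
        have h1 : N ≤ φ N := hφ.le_apply
        have h2 : φ N ≤ ψ (φ N) := hψ.le_apply
        exact (le_max_right _ _).trans (h1.trans h2)
      set w : ℂ := (-1) ^ (j : ℕ) * (t * c (φ N)) with hw
      refine ⟨pf (k + 1) ((A M).updateRow 0 (fun i => A M 0 i + if i = j.succ then C w else 0)),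
        ⟨g M, hg M, _, fun i i' => ?_, rfl⟩, fun s => ?_⟩
      · rcases eq_or_ne i 0 with rfl | hi
        · rw [Matrix.updateRow_self]
          refine Submodule.add_mem _ (hA M 0 i') ?_
          split_ifs
          · exact C_mem_Pol _ _ _
          · exact Submodule.zero_mem _
        · rw [Matrix.updateRow_ne hi]
          exact hA M i i'
      · have h1 : pf (k + 1) ((A M).updateRow 0
            (fun i => A M 0 i + if i = j.succ then C w else 0)) =
            pf (k + 1) (A M) + t • (c (φ N) • D j M) := by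
          rw [RQ.pf_row, pf_succ]
          simp only [mul_add, add_mul]
          rw [Finset.sum_add_distrib]
          congr 1
          rw [Finset.sum_eq_single j]
          · rw [if_pos rfl, hw]
            simp only [MvPolynomial.smul_eq_C_mul, map_mul, map_pow, map_neg, map_one]
            have h2 : ((-1 : MvPolynomial σ ℂ)) ^ (j : ℕ) * (-1) ^ (j : ℕ) = 1 := by
              rw [← mul_pow]
              simp
            calc (-1 : MvPolynomial σ ℂ) ^ (j : ℕ) * ((-1) ^ (j : ℕ) * (C t * C (c (φ N)))) *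
                pf k ((A M).submatrix (fun i => (j.succAbove i).succ)
                  (fun i => (j.succAbove i).succ))
                = ((-1) ^ (j : ℕ) * (-1) ^ (j : ℕ)) * (C t * (C (c (φ N)) * D j M)) := by
                  simp only [hD]
                  ring
              _ = _ := by rw [h2, one_mul]
          · intro i _ hi
            rw [if_neg (fun h => hi (Fin.succ_injective _ h)), mul_zero, zero_mul]
          · intro h
            exact absurd (Finset.mem_univ j) h
        rw [h1, coeff_add, coeff_add, MvPolynomial.coeff_smul s t (c (φ N) • D j M),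
          MvPolynomial.coeff_smul s t G']
        have h2 := hAc M s
        have h3 := hN₀ N (le_max_left _ _) s
        have h4 : 1 / ((M : ℝ) + 1) ≤ 1 / ((N₁ : ℝ) + 1) := by
          apply one_div_le_one_div_of_le
          · positivity
          · have : (N₁ : ℝ) ≤ M := by exact_mod_cast hM1
            linarith
        have h5 : coeff s (pf (k + 1) (A M)) + t • coeff s (c (φ N) • D j M) -
            (coeff s G + t • coeff s G') = (coeff s (pf (k + 1) (A M)) - coeff s G) +
            t * (coeff s (c (φ N) • D j M) - coeff s G') := by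
          simp only [smul_eq_mul]
          ring
        rw [h5]
        refine (norm_add_le _ _).trans_lt ?_
        rw [norm_mul]
        have h6 : ‖t‖ * ‖coeff s (c (φ N) • D j M) - coeff s G'‖ ≤ ε / 2 := by
          have h7 : ‖t‖ * ‖coeff s (c (φ N) • D j M) - coeff s G'‖ ≤
              (‖t‖ + 1) * (ε / 2 / (‖t‖ + 1)) := by
            apply mul_le_mul
            · linarith
            · exact h3.le
            · exact norm_nonneg _
            · positivity
          have h8 : (‖t‖ + 1) * (ε / 2 / (‖t‖ + 1)) = ε / 2 := by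
            field_simp
          rwa [h8] at h7
        linarith

end Pool.HY
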