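import Pool.Agent.Helper97.HY.Bound
import Pool.Agent.Helper97.HY.Chain
import Pool.Agent.Helper97.RQ.Core
import Pool.Agent.Helper45.PT.Top
import Pool.Agent.Helper45.PT.Fin

/-!
# Nonzero multiples of the permanent which are limits of Pfaffians of computed entries
(MP_381749_lc)
-/

set_option autoImplicit false

namespace Pool.HY

open MvPolynomial Pool.Agent.Helper24.SQ Pool.CD Pool.RQ

/-- the counting inequality -/
theorem h_ineq {n j e L : ℕ} (hn1 : 1 ≤ n) {G₁ G₂ : MvPolynomial (Fin n × Fin n) ℂ} (h0 : G₁ ≠ 0)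
    (h1 : permPoly n ∣ G₁) (h2 : ¬ permPoly n ∣ G₂)
    (hN : ∀ t : ℂ, Near (HCls j (e + 1) L) (G₁ + t • G₂)) {M d : ℕ} (hM : 2 ≤ M)
    (hMd : M ^ 3 = 2 * d) (hd : 2 ≤ d) (hn : 702 * M ^ 3 ≤ n) :
    (d.factorial : ℝ) ^ (2 * (2 * d - 1)) ≤
      (Real.exp 1 * (e + 1) * (24 * j / ((2 * d - 1) * (2 * d) + 4 : ℕ) + 5)) ^
        ((2 * d - 1) * (2 * d) + 4) * (11 * Real.exp 1 * (e + 1)) ^ L := by
  classical
  have hP := perm_prime hn1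
  obtain ⟨ι, _, P, Z, hι, ⟨f, hf, rfl⟩, hZc, hZ⟩ := many hM hMd hd hn (permCls_br n)
  obtain ⟨c₀, rfl⟩ := exists_fc f hf
  -- the multiplicity
  have hfin : FiniteMultiplicity (permPoly n) G₁ :=
    FiniteMultiplicity.of_not_isUnit hP.not_isUnit h0
  obtain ⟨Q, hQ, hPQ⟩ := hfin.exists_eq_pow_mul_and_not_dvd
  obtain ⟨a, ha⟩ : ∃ a, multiplicity (permPoly n) G₁ = a + 1 := by
    refine ⟨multiplicity (permPoly n) G₁ - 1, ?_⟩
    have : 1 ≤ multiplicity (permPoly n) G₁ := by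
      by_contra hlt
      have h3 : multiplicity (permPoly n) G₁ = 0 := by omega
      rw [h3, pow_zero, one_mul] at hQ
      rw [← hQ] at hPQ
      exact hPQ h1
    omega
  rw [ha] at hQ
  have hG : ¬ permPoly n ∣ Q * G₂ := by
    intro h
    rcases hP.dvd_or_dvd h with h3 | h3
    · exact hPQ h3
    · exact h2 h3
  obtain ⟨c, Z₁, hZ₁, hcrit⟩ := generic hP (fun q => by
    obtain ⟨a, b, ha, hb, hab, -, -⟩ := perm_lin n q
    exact ⟨a, b, ha, hb, hab⟩) hG c₀ Z hZ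
  obtain ⟨s, Z₂, hZ₂, hcrit₂⟩ := scaled (aeval (fc c) (permPoly n)) (aeval (fc c) Q)
    (aeval (fc c) G₂) a 0 Z₁ (fun z hz => (hcrit z hz).1) (fun z hz h => (hcrit z hz).2 (by
      rw [map_mul, map_mul, h, zero_mul])) (fun z hz h => (hcrit z hz).2 (by
      rw [map_mul, map_mul, h, mul_zero]))
  have e1 : aeval (fc c) (permPoly n) ^ 0 * (aeval (fc c) (permPoly n) ^ (a + 1) *
      aeval (fc c) Q + C s * aeval (fc c) G₂) = aeval (fc c) (G₁ + s • G₂) := by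
    rw [pow_zero, one_mul, map_add, hQ, map_mul, map_pow, map_smul, smul_eq_C_mul]
  rw [e1] at hcrit₂
  obtain ⟨P, Z₃, hP3, hZ₃, hcrit₃⟩ := crit_near (G₁ + s • G₂) (hN s) (fc c)
    (fun q => fc_totalDegree c q) Z₂ hcrit₂
  have h5 := h_crit_bound j e L P hP3 Z₃ hcrit₃
  rw [hι, hZ₃, hZ₂, hZ₁, hZc, Nat.cast_pow] at h5
  exact h5

/-- **Multiples of the permanent.** -/
theorem multiples : ∃ c : ℝ, 0 < c ∧ ∀ n m δ L : ℕ, 1 ≤ δ →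
    ∀ G : MvPolynomial (Fin n × Fin n) ℂ, G ≠ 0 → permPoly n ∣ G → Lim m δ L G →
    c * (n : ℝ) ^ 3 ≤ (max m (n ^ 2) : ℕ) * δ * (2 * δ : ℝ) ^ ((L : ℝ) / (c * (n : ℝ) ^ 2)) := by
  obtain ⟨c, hc, H⟩ := numericH 702 (by norm_num)
  refine ⟨c, hc, fun n m δ L hδ G hG0 hdvd hL => ?_⟩
  obtain ⟨e, rfl⟩ : ∃ e, δ = e + 1 := ⟨δ - 1, by omega⟩
  rcases Nat.eq_zero_or_pos n with h0 | hn
  · subst h0
    have : (0 : ℝ) ≤ ((max m (0 ^ 2) : ℕ) : ℝ) * ((e + 1 : ℕ) : ℝ) *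
        (2 * ((e + 1 : ℕ) : ℝ)) ^ ((L : ℝ) / (c * ((0 : ℕ) : ℝ) ^ 2)) := by positivity
    simpa using this
  obtain ⟨j, hj1, hjm, G₁, G₂, h1, h2, h3, h4⟩ :=
    chain (permPoly n) (perm_prime hn).not_isUnit (e + 1) L m G hG0 hdvd hL
  have h5 := H n j e L hj1 fun M d hM hMd hd hMn => h_ineq hn h1 h2 h3 h4 hM hMd hd hMn
  have h6 : ((max j (n ^ 2) : ℕ) : ℝ) ≤ ((max m (n ^ 2) : ℕ) : ℝ) := by
    exact_mod_cast max_le_max hjm le_rfl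
  push_cast at h5 h6 ⊢
  refine h5.trans ?_
  gcongr

/-- **Main theorem**: neighbouring integer matrices which the queries do not distinguish. -/
theorem final : ∃ c : ℝ, 0 < c ∧ ∀ n m δ L k : ℕ, 1 ≤ δ →
    (max m (n ^ 2) : ℕ) * δ * (2 * δ : ℝ) ^ ((L : ℝ) / (c * (n : ℝ) ^ 2)) < c * (n : ℝ) ^ 3 →
    ∀ G : Fin k → MvPolynomial (Fin n × Fin n) ℂ,
    (∀ i, G i ≠ 0 ∧ Near (HCls m δ L) (G i)) →
    ∀ (α : Type) (q : Matrix (Fin n) (Fin n) ℝ → α),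
    (∀ X : Matrix (Fin n) (Fin n) ℝ, (∀ i, eval (fun p => (X p.1 p.2 : ℂ)) (G i) ≠ 0) →
      ∃ ε : ℝ, 0 < ε ∧
        ∀ Y : Matrix (Fin n) (Fin n) ℝ, (∀ a b, |Y a b - X a b| < ε) → q Y = q X) →
    ∃ X Y : Matrix (Fin n) (Fin n) ℤ, (∀ a b, |Y a b - X a b| ≤ 1) ∧ X.permanent = 0 ∧
      (∀ i, eval (fun p => (X p.1 p.2 : ℂ)) (G i) ≠ 0) ∧
      (∀ i, eval (fun p => (Y p.1 p.2 : ℂ)) (G i) ≠ 0) ∧ Y.permanent ≠ 0 ∧
      q (Y.map (Int.cast : ℤ → ℝ)) = q (X.map (Int.cast : ℤ → ℝ)) := by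
  obtain ⟨c, hc, H⟩ := multiples
  refine ⟨c, hc, fun n m δ L k hδ hlt G hG α q hq => ?_⟩
  rcases Nat.eq_zero_or_pos n with h0 | hn
  · exfalso
    subst h0
    have : (0 : ℝ) ≤ ((max m (0 ^ 2) : ℕ) : ℝ) * δ *
        (2 * (δ : ℝ)) ^ ((L : ℝ) / (c * ((0 : ℕ) : ℝ) ^ 2)) := by positivity
    have h1 : c * ((0 : ℕ) : ℝ) ^ 3 = 0 := by simp
    rw [h1] at hlt
    exact absurd hlt (not_lt.2 this)
  refine Pool.PT.seg_int n k hn G (fun i hi => ?_) α q hq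
  have h1 := Pool.PT.lim_top (HRep m δ L) (fun P t hP => (HCls m δ L).subst P _ hP fun x => by
    refine (totalDegree_mul _ _).trans ?_
    rw [totalDegree_C, zero_add, totalDegree_X]) (m * (δ * (δ + 1) ^ L))
    (fun P hP => (HCls m δ L).le P hP) (G i) (hG i).1 fun ε hε => by
      obtain ⟨P, hP, hc⟩ := (hG i).2 ε hε
      exact ⟨P, 1, hP, by simpa using hc⟩
  exact absurd (H n m δ L hδ _ h1.1 hi h1.2) (not_le.2 hlt)

end Pool.HY
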