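import Pool.Agent.Helper74.Bez.Count

/-!
HYB row C (MP_381749_lc): the three-group Bezout bound for equations of bidegree `(p1, q1)`, `(p2, q2)`,
`(p3, q3)`.
-/
namespace Pool.HY
open MvPolynomial Finset Bez

/-- exponents of three groups of bounded degrees -/
noncomputable def bfin3 (t1 t2 t3 : Type*) [Fintype t1] [Fintype t2] [Fintype t3] [DecidableEq t1]
    [DecidableEq t2] [DecidableEq t3] (A B C : ℕ) : Finset ((t1 ⊕ t2) ⊕ t3 →₀ ℕ) :=
  (bfin t1 t2 A B ×ˢ bal t3 C).map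
    (Finsupp.sumFinsuppEquivProdFinsupp (α := t1 ⊕ t2) (β := t3) (γ := ℕ)).symm.toEmbedding

section
variable {t1 t2 t3 : Type*} [Fintype t1] [Fintype t2] [Fintype t3] [DecidableEq t1] [DecidableEq t2]
  [DecidableEq t3]

theorem mem_bfin3 {A B C : ℕ} {a : (t1 ⊕ t2) ⊕ t3 →₀ ℕ} : a ∈ bfin3 t1 t2 t3 A B C ↔
    (∑ i, a (Sum.inl (Sum.inl i)) ≤ A ∧ ∑ i, a (Sum.inl (Sum.inr i)) ≤ B) ∧ ∑ i, a (Sum.inr i) ≤ C := by
  unfold bfin3
  rw [Finset.mem_map_equiv, Finset.mem_product, mem_bfin, mem_bal]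
  simp only [Equiv.symm_symm]
  rfl

theorem card_bfin3 (A B C : ℕ) : (bfin3 t1 t2 t3 A B C).card =
    (Fintype.card t1 + A).choose (Fintype.card t1) * (Fintype.card t2 + B).choose (Fintype.card t2) *
      (Fintype.card t3 + C).choose (Fintype.card t3) := by
  unfold bfin3
  rw [card_map, card_product, card_bfin, card_bal]
end

variable {K : Type*} [Field K] {s1 s2 : Type*} [Fintype s1] [Fintype s2] [DecidableEq s1]
  [DecidableEq s2] {ι : Type*} [Fintype ι] [DecidableEq ι]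
  {t1 t2 t3 : Type*} [Fintype t1] [Fintype t2] [Fintype t3] [DecidableEq t1] [DecidableEq t2]
  [DecidableEq t3]

theorem bez_AB3 [Infinite K] (p1 q1 p2 q2 p3 q3 : ℕ) (f : (t1 ⊕ t2) ⊕ t3 → MvPolynomial (s1 ⊕ s2) K)
    (p : ι → s1 ⊕ s2 → K)
    (hp : Function.Injective p) (hf : ∀ k i, eval (p k) (f i) = 0)
    (hJ : ∀ k, Function.Surjective (jac f (p k)))
    (h1 : ∀ i, f (Sum.inl (Sum.inl i)) ∈ Wb K s1 s2 p1 q1)
    (h2 : ∀ i, f (Sum.inl (Sum.inr i)) ∈ Wb K s1 s2 p2 q2)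
    (h3 : ∀ i, f (Sum.inr i) ∈ Wb K s1 s2 p3 q3) (A B C : ℕ) :
    Fintype.card ι * ((Fintype.card t1 + A).choose (Fintype.card t1) *
      (Fintype.card t2 + B).choose (Fintype.card t2) * (Fintype.card t3 + C).choose (Fintype.card t3)) ≤
    (Fintype.card s1 + (p1 * A + p2 * B + p3 * C + Fintype.card ι)).choose (Fintype.card s1) *
      (Fintype.card s2 + (q1 * A + q2 * B + q3 * C + Fintype.card ι)).choose (Fintype.card s2) := by
  obtain ⟨g, hg1, hg2⟩ := exists_interp p hp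
  obtain ⟨hfin, hrank⟩ := Wb_basis (K := K) (s1 := s1) (s2 := s2)
    (p1 * A + p2 * B + p3 * C + Fintype.card ι) (q1 * A + q2 * B + q3 * C + Fintype.card ι)
  have := hfin
  rw [← hrank, ← card_bfin3 (t1 := t1) (t2 := t2) (t3 := t3)]
  refine card_le f p hf hJ g hg1 (bfin3 t1 t2 t3 A B C) _ ?_
  intro k a ha
  rw [mem_bfin3] at ha
  obtain ⟨⟨ha1, ha2⟩, ha3⟩ := ha
  have hprod : ∏ i, f i ^ a i ∈ Wb K s1 s2 (p1 * A + p2 * B + p3 * C) (q1 * A + q2 * B + q3 * C) := by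
    rw [Fintype.prod_sum_type, Fintype.prod_sum_type]
    have e1 := Wb_prod (univ : Finset t1) (d1 := fun i => a (Sum.inl (Sum.inl i)) * p1)
      (d2 := fun i => a (Sum.inl (Sum.inl i)) * q1)
      (f := fun i => f (Sum.inl (Sum.inl i)) ^ a (Sum.inl (Sum.inl i))) fun i _ => Wb_pow (h1 i) _
    have e2 := Wb_prod (univ : Finset t2) (d1 := fun i => a (Sum.inl (Sum.inr i)) * p2)
      (d2 := fun i => a (Sum.inl (Sum.inr i)) * q2)
      (f := fun i => f (Sum.inl (Sum.inr i)) ^ a (Sum.inl (Sum.inr i))) fun i _ => Wb_pow (h2 i) _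
    have e3 := Wb_prod (univ : Finset t3) (d1 := fun i => a (Sum.inr i) * p3)
      (d2 := fun i => a (Sum.inr i) * q3)
      (f := fun i => f (Sum.inr i) ^ a (Sum.inr i)) fun i _ => Wb_pow (h3 i) _
    refine Wb_mono ?_ ?_ (Wb_mul (Wb_mul e1 e2) e3)
    · refine add_le_add (add_le_add ?_ ?_) ?_
      · rw [← Finset.sum_mul, mul_comm]; exact Nat.mul_le_mul_left _ ha1
      · rw [← Finset.sum_mul, mul_comm]; exact Nat.mul_le_mul_left _ ha2
      · rw [← Finset.sum_mul, mul_comm]; exact Nat.mul_le_mul_left _ ha3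
    · refine add_le_add (add_le_add ?_ ?_) ?_
      · rw [← Finset.sum_mul, mul_comm]; exact Nat.mul_le_mul_left _ ha1
      · rw [← Finset.sum_mul, mul_comm]; exact Nat.mul_le_mul_left _ ha2
      · rw [← Finset.sum_mul, mul_comm]; exact Nat.mul_le_mul_left _ ha3
  exact Wb_mono (by omega) (by omega) (Wb_mul (hg2 k) hprod)

theorem bez_low (q α T : ℕ) :
    (α : ℝ) ^ q * (T : ℝ) ^ q ≤ (q.factorial : ℝ) * ((q + α * T).choose q : ℝ) := by
  have h3 := Nat.pow_le_choose (α := ℝ) q (q + α * T)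
  rw [div_le_iff₀ (by positivity), show q + α * T + 1 - q = α * T + 1 by omega] at h3
  have h4 : ((α : ℝ) * T) ^ q ≤ ((α * T + 1 : ℕ) : ℝ) ^ q := by
    gcongr
    push_cast
    linarith
  rw [← mul_pow]
  linarith

theorem bez_upp (n γ T S : ℕ) (hT : 1 ≤ T) :
    (n.factorial : ℝ) * ((n + (γ * T + S)).choose n : ℝ) ≤
      ((γ : ℝ) + (n + S : ℕ) / T) ^ n * (T : ℝ) ^ n := by
  have hTp : (0 : ℝ) < T := by exact_mod_cast hT
  have := Nat.choose_le_pow_div (α := ℝ) n (n + (γ * T + S))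
  rw [le_div_iff₀ (by positivity)] at this
  rw [← mul_pow, add_mul, div_mul_cancel₀ _ hTp.ne']
  rw [mul_comm]
  refine this.trans (le_of_eq ?_)
  push_cast
  ring

/-- the three-group Bezout bound -/
theorem bez3 [Infinite K] (p1 q1 p2 q2 p3 q3 : ℕ) (f : (t1 ⊕ t2) ⊕ t3 → MvPolynomial (s1 ⊕ s2) K)
    (p : ι → s1 ⊕ s2 → K)
    (hp : Function.Injective p) (hf : ∀ k i, eval (p k) (f i) = 0)
    (hJ : ∀ k, Function.Surjective (jac f (p k)))
    (h1 : ∀ i, f (Sum.inl (Sum.inl i)) ∈ Wb K s1 s2 p1 q1)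
    (h2 : ∀ i, f (Sum.inl (Sum.inr i)) ∈ Wb K s1 s2 p2 q2)
    (h3 : ∀ i, f (Sum.inr i) ∈ Wb K s1 s2 p3 q3)
    (hc : Fintype.card t1 + Fintype.card t2 + Fintype.card t3 = Fintype.card s1 + Fintype.card s2)
    (α β γ : ℕ) :
    Fintype.card ι * (α ^ Fintype.card t1 * β ^ Fintype.card t2 * γ ^ Fintype.card t3) *
        ((Fintype.card s1).factorial * (Fintype.card s2).factorial) ≤
      ((Fintype.card t1).factorial * (Fintype.card t2).factorial * (Fintype.card t3).factorial) *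
        ((p1 * α + p2 * β + p3 * γ) ^ Fintype.card s1 *
          (q1 * α + q2 * β + q3 * γ) ^ Fintype.card s2) := by
  set S := Fintype.card ι with hS
  set n1 := Fintype.card s1 with hn1
  set n2 := Fintype.card s2 with hn2
  set c1 := Fintype.card t1 with hc1
  set c2 := Fintype.card t2 with hc2
  set c3 := Fintype.card t3 with hc3
  set u : ℕ := p1 * α + p2 * β + p3 * γ with hu
  set v : ℕ := q1 * α + q2 * β + q3 * γ with hv
  -- the inequality for all `T`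
  have hT : ∀ T : ℕ, 1 ≤ T → (S : ℝ) * ((α : ℝ) ^ c1 * (β : ℝ) ^ c2 * (γ : ℝ) ^ c3) *
      ((n1.factorial : ℝ) * n2.factorial) ≤
      ((c1.factorial : ℝ) * c2.factorial * c3.factorial) *
      (((u : ℝ) + (n1 + S : ℕ) / T) ^ n1 * ((v : ℝ) + (n2 + S : ℕ) / T) ^ n2) := by
    intro T hT1
    have hTp : (0 : ℝ) < T := by exact_mod_cast hT1
    have h := bez_AB3 p1 q1 p2 q2 p3 q3 f p hp hf hJ h1 h2 h3 (α * T) (β * T) (γ * T)
    have huT : p1 * (α * T) + p2 * (β * T) + p3 * (γ * T) = u * T := by rw [hu]; ring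
    have hvT : q1 * (α * T) + q2 * (β * T) + q3 * (γ * T) = v * T := by rw [hv]; ring
    rw [huT, hvT] at h
    have h' : (S : ℝ) * (((c1 + α * T).choose c1 : ℝ) * ((c2 + β * T).choose c2 : ℝ) *
        ((c3 + γ * T).choose c3 : ℝ)) ≤
        ((n1 + (u * T + S)).choose n1 : ℝ) * ((n2 + (v * T + S)).choose n2 : ℝ) := by
      exact_mod_cast h
    have l1 := bez_low c1 α T
    have l2 := bez_low c2 β T
    have l3 := bez_low c3 γ T
    have u1 := bez_upp n1 u T S hT1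
    have u2 := bez_upp n2 v T S hT1
    have hTT : (T : ℝ) ^ c1 * (T : ℝ) ^ c2 * (T : ℝ) ^ c3 = (T : ℝ) ^ n1 * (T : ℝ) ^ n2 := by
      rw [← pow_add, ← pow_add, ← pow_add, hc]
    have hpos : (0 : ℝ) < (T : ℝ) ^ c1 * (T : ℝ) ^ c2 * (T : ℝ) ^ c3 := by positivity
    refine le_of_mul_le_mul_right ?_ hpos
    calc (S : ℝ) * ((α : ℝ) ^ c1 * (β : ℝ) ^ c2 * (γ : ℝ) ^ c3) * ((n1.factorial : ℝ) * n2.factorial) *
          ((T : ℝ) ^ c1 * (T : ℝ) ^ c2 * (T : ℝ) ^ c3)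
        = (S : ℝ) * (((α : ℝ) ^ c1 * (T : ℝ) ^ c1) * ((β : ℝ) ^ c2 * (T : ℝ) ^ c2) *
            ((γ : ℝ) ^ c3 * (T : ℝ) ^ c3)) *
          ((n1.factorial : ℝ) * n2.factorial) := by ring
      _ ≤ (S : ℝ) * (((c1.factorial : ℝ) * ((c1 + α * T).choose c1 : ℝ)) *
          ((c2.factorial : ℝ) * ((c2 + β * T).choose c2 : ℝ)) *
          ((c3.factorial : ℝ) * ((c3 + γ * T).choose c3 : ℝ))) *
          ((n1.factorial : ℝ) * n2.factorial) := by gcongr
      _ = ((c1.factorial : ℝ) * c2.factorial * c3.factorial) * ((n1.factorial : ℝ) * n2.factorial) *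
          ((S : ℝ) * (((c1 + α * T).choose c1 : ℝ) * ((c2 + β * T).choose c2 : ℝ) *
            ((c3 + γ * T).choose c3 : ℝ))) := by ring
      _ ≤ ((c1.factorial : ℝ) * c2.factorial * c3.factorial) * ((n1.factorial : ℝ) * n2.factorial) *
          (((n1 + (u * T + S)).choose n1 : ℝ) * ((n2 + (v * T + S)).choose n2 : ℝ)) := by
        gcongr
      _ = ((c1.factorial : ℝ) * c2.factorial * c3.factorial) *
          (((n1.factorial : ℝ) * ((n1 + (u * T + S)).choose n1 : ℝ)) *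
          ((n2.factorial : ℝ) * ((n2 + (v * T + S)).choose n2 : ℝ))) := by ring
      _ ≤ ((c1.factorial : ℝ) * c2.factorial * c3.factorial) *
          ((((u : ℝ) + (n1 + S : ℕ) / T) ^ n1 * (T : ℝ) ^ n1) *
          (((v : ℝ) + (n2 + S : ℕ) / T) ^ n2 * (T : ℝ) ^ n2)) := by gcongr
      _ = _ := by rw [hTT]; ring
  -- limit
  have lim : Filter.Tendsto (fun T : ℕ => ((c1.factorial : ℝ) * c2.factorial * c3.factorial) *
      (((u : ℝ) + (n1 + S : ℕ) / T) ^ n1 * ((v : ℝ) + (n2 + S : ℕ) / T) ^ n2)) Filter.atTop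
      (nhds (((c1.factorial : ℝ) * c2.factorial * c3.factorial) *
        (((u : ℝ) + 0) ^ n1 * ((v : ℝ) + 0) ^ n2))) := by
    refine Filter.Tendsto.const_mul _ (Filter.Tendsto.mul ?_ ?_)
    · exact ((tendsto_const_div_atTop_nhds_zero_nat _).const_add _).pow _
    · exact ((tendsto_const_div_atTop_nhds_zero_nat _).const_add _).pow _
  have fin := ge_of_tendsto lim (Filter.eventually_atTop.2 ⟨1, hT⟩)
  rw [add_zero, add_zero] at fin
  exact_mod_cast fin

end Pool.HY
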