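import Pool.Agent.Helper97.HY.Jac
import Pool.Agent.Helper97.HY.Count

/-!
# The number of critical points of a Pfaffian of computed entries (MP_381749_lc)
-/

set_option autoImplicit false

namespace Pool.HY

open Finset Matrix Pool.CD Bez

variable {K : Type*} [Field K] {μ ν : Type*} [Fintype μ] [DecidableEq μ] [Fintype ν]
  [DecidableEq ν] {L : ℕ}

/-- the number of nondegenerate critical points of `y none` on `P = 0` -/
theorem hcrit_card [CharZero K] {e : ℕ} {A : Matrix μ μ (MvPolynomial (Option ν ⊕ Fin L) K)}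
    {F : Fin L → MvPolynomial (Option ν ⊕ Fin L) K} {g : Fin L → MvPolynomial (Option ν) K}
    (HDg : HD A F g) {B : Matrix μ μ (MvPolynomial (Option ν) K)}
    {P : MvPolynomial (Option ν) K} (H : PD (comp (Sum.elim MvPolynomial.X g) A) B P)
    (hA : ∀ a b, (A a b).totalDegree ≤ e + 1) (hF : ∀ j, (F j).totalDegree ≤ e + 2)
    {ι : Type*} [Fintype ι] (y : ι → Option ν → K) (hy : Function.Injective y)
    (h0 : ∀ p, MvPolynomial.eval (y p) P = 0)
    (hg : ∀ p v, MvPolynomial.eval (y p) (MvPolynomial.pderiv (some v) P) = 0)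
    (hn : ∀ p, MvPolynomial.eval (y p) (MvPolynomial.pderiv none P) ≠ 0)
    (hH : ∀ p, ∀ u : ν → K, (∀ v, ∑ j, MvPolynomial.eval (y p)
      (MvPolynomial.pderiv (some j) (MvPolynomial.pderiv (some v) P)) * u j = 0) → u = 0)
    (α β γ : ℕ) :
    Fintype.card ι * (α ^ (2 * Fintype.card μ) * β ^ (Fintype.card ν + 4 + L) * γ ^ L) *
        ((Fintype.card ν + 4 + L).factorial * (2 * Fintype.card μ + L).factorial) ≤
      ((2 * Fintype.card μ).factorial * (Fintype.card ν + 4 + L).factorial * L.factorial) *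
      (((e + 1) * α + (e + 1) * β + (e + 2) * γ) ^ (Fintype.card ν + 4 + L) *
        (α + 2 * β) ^ (2 * Fintype.card μ + L)) := by
  classical
  set A' := comp (Sum.elim MvPolynomial.X g) A with hA'
  set c : ι → K := fun p => MvPolynomial.eval (y p) (MvPolynomial.pderiv none P) with hc
  have skA : ∀ p, (ev (y p) A').transpose = -ev (y p) A' := fun p => ev_skew H.skA _
  have hABz : ∀ p, ev (y p) A' * ev (y p) B = 0 := by
    intro p
    rw [← ev_mul, H.AB, ev_smul_one, h0, zero_smul]
  have hs : ∀ p, ∃ k h : μ → K, KB (ev (y p) A') k h := by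
    intro p
    have h1 : ev (y p) B * dv (y p) none A' + dv (y p) none B * ev (y p) A' =
        c p • (1 : Matrix μ μ K) := by
      rw [add_comm, ← dv_mul, H.BA, dv_smul_one]
    exact exists_KB (hn p) (hABz p) h1 (H.tr1 _ _)
  choose k0 h00 hKB0 using hs
  obtain ⟨w1, hw1⟩ := exists_generic k0 fun p => (hKB0 p).ne
  obtain ⟨w2, hw2⟩ := exists_generic
    (fun p => h00 p + (-(w1 ⬝ᵥ h00 p) / (w1 ⬝ᵥ k0 p)) • k0 p)
    fun p => ((hKB0 p).swap.add _).ne
  have hs2 : ∀ p, ∃ k h : μ → K, KB (ev (y p) A') k h ∧ w1 ⬝ᵥ k = 1 ∧ w2 ⬝ᵥ k = 0 ∧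
      w1 ⬝ᵥ h = 0 ∧ w2 ⬝ᵥ h ≠ 0 ∧ k ⬝ᵥ (dv (y p) none A' *ᵥ h) = 1 ∧
      ev (y p) B = c p • (vecMulVec h k - vecMulVec k h) := by
    intro p
    obtain ⟨k, h, hKB, a1, a2, a3, a4⟩ := (hKB0 p).normalise w1 w2 (hw1 p) (hw2 p)
    obtain ⟨g, hgB⟩ := hKB.skew_form (skA p) (ev_skew H.skB (y p)) (hABz p)
    have skE := dv_skew H.skA (y p) none
    have htr := H.tr1 (y p) none
    rw [hgB, Matrix.smul_mul, trace_smul, Matrix.sub_mul, trace_sub, tr_vv, tr_vv,
      skew_dot skE h k, smul_eq_mul] at htr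
    have h5 : g * (k ⬝ᵥ (dv (y p) none A' *ᵥ h)) = -c p := by
      have h6 : 2 * (g * (k ⬝ᵥ (dv (y p) none A' *ᵥ h))) = 2 * -c p := by
        rw [hc]
        linear_combination -htr
      exact mul_left_cancel₀ two_ne_zero h6
    set t := k ⬝ᵥ (dv (y p) none A' *ᵥ h) with ht
    have ht0 : t ≠ 0 := by
      intro h6
      rw [h6, mul_zero] at h5
      exact hn p (neg_eq_zero.1 h5.symm)
    refine ⟨k, t⁻¹ • h, (hKB.swap.smul (inv_ne_zero ht0)).swap, a1, a2, ?_, ?_, ?_, ?_⟩
    · rw [dotProduct_smul, a3, smul_zero]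
    · rw [dotProduct_smul, smul_eq_mul]
      exact mul_ne_zero (inv_ne_zero ht0) a4
    · rw [mulVec_smul, dotProduct_smul, ← ht, smul_eq_mul, inv_mul_cancel₀ ht0]
    · rw [hgB]
      have h7 : g = -c p * t⁻¹ := by
        rw [← h5, mul_assoc, mul_inv_cancel₀ ht0, mul_one]
      rw [h7]
      ext i j
      simp only [Matrix.smul_apply, Matrix.sub_apply, vecMulVec_apply, smul_eq_mul, Pi.smul_apply]
      ring
  choose k h hKB a1 a2 a3 a4 hT hB using hs2
  have hL : ∀ p v, k p ⬝ᵥ (dv (y p) (some v) A' *ᵥ h p) = 0 := by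
    intro p v
    have htr := H.tr1 (y p) (some v)
    rw [hg, mul_zero, hB, Matrix.smul_mul, trace_smul, Matrix.sub_mul, trace_sub, tr_vv, tr_vv,
      skew_dot (dv_skew H.skA (y p) (some v)) (h p) (k p), smul_eq_mul] at htr
    have h6 : c p * (2 * (k p ⬝ᵥ (dv (y p) (some v) A' *ᵥ h p))) = 0 := by
      linear_combination htr
    exact (mul_eq_zero.1 ((mul_eq_zero.1 h6).resolve_left (hn p))).resolve_left two_ne_zero
  -- the multipliers
  set x : ι → Option ν ⊕ Fin L → K := fun p s =>
    MvPolynomial.eval (y p) (Sum.elim MvPolynomial.X g s) with hx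
  have hq : ∀ p, ∃ q : Fin L → K, ∀ j, k p ⬝ᵥ (dv (x p) (Sum.inr j) A *ᵥ h p) +
      ∑ i, q i * MvPolynomial.eval (x p) (MvPolynomial.pderiv (Sum.inr j) (F i)) = q j := by
    intro p
    have hTri : ∀ i j, i ≤ j → (Matrix.of fun j i =>
        MvPolynomial.eval (x p) (MvPolynomial.pderiv (Sum.inr i) (F j)) :
          Matrix (Fin L) (Fin L) K) i j = 0 := by
      intro i j hij
      rw [Matrix.of_apply, HDg.tri i j hij, map_zero]
    exact tri_exists hTri fun j => k p ⬝ᵥ (dv (x p) (Sum.inr j) A *ᵥ h p)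
  choose q hq using hq
  have hadj : ∀ p s, k p ⬝ᵥ (dv (x p) s A *ᵥ h p) +
      ∑ i, q p i * MvPolynomial.eval (x p) (MvPolynomial.pderiv s (F i)) = rv (q p) s := by
    intro p s
    rcases s with o | j
    · -- the equation for `y o`
      have e1 : k p ⬝ᵥ (dv (y p) o A' *ᵥ h p) = k p ⬝ᵥ (dv (x p) (Sum.inl o) A *ᵥ h p) +
          ∑ j, MvPolynomial.eval (y p) (MvPolynomial.pderiv o (g j)) *
            (k p ⬝ᵥ (dv (x p) (Sum.inr j) A *ᵥ h p)) := by
        rw [hA', dv_comp, Fintype.sum_sum_type]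
        simp only [Sum.elim_inl, Sum.elim_inr, add_mulVec, sum_mulVec, smul_mulVec,
          dotProduct_add, dotProduct_sum, dotProduct_smul, smul_eq_mul]
        congr 1
        rw [Finset.sum_eq_single o]
        · rw [MvPolynomial.pderiv_X_self, map_one, one_mul]
        · intro b _ hb
          rw [MvPolynomial.pderiv_X_of_ne hb, map_zero, zero_mul]
        · intro h
          exact absurd (Finset.mem_univ _) h
      have e2 : ∀ i, MvPolynomial.eval (y p) (MvPolynomial.pderiv o (g i)) =
          MvPolynomial.eval (x p) (MvPolynomial.pderiv (Sum.inl o) (F i)) +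
          ∑ j, MvPolynomial.eval (y p) (MvPolynomial.pderiv o (g j)) *
            MvPolynomial.eval (x p) (MvPolynomial.pderiv (Sum.inr j) (F i)) := by
        intro i
        have h1 := c1 (Sum.elim MvPolynomial.X g) (y p) (F i) o
        rw [HDg.val i, Fintype.sum_sum_type] at h1
        simp only [Sum.elim_inl, Sum.elim_inr] at h1
        rw [h1]
        congr 1
        rw [Finset.sum_eq_single o]
        · rw [MvPolynomial.pderiv_X_self, map_one, one_mul]
        · intro b _ hb
          rw [MvPolynomial.pderiv_X_of_ne hb, map_zero, zero_mul]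
        · intro h
          exact absurd (Finset.mem_univ _) h
      have e3 : ∀ j, k p ⬝ᵥ (dv (x p) (Sum.inr j) A *ᵥ h p) = q p j -
          ∑ i, q p i * MvPolynomial.eval (x p) (MvPolynomial.pderiv (Sum.inr j) (F i)) := by
        intro j
        have := hq p j
        linear_combination this
      have e4 : rv (q p) (Sum.inl o) = k p ⬝ᵥ (dv (y p) o A' *ᵥ h p) := by
        rcases o with _ | v
        · exact (hT p).symm
        · exact (hL p v).symm
      rw [e4, e1]
      congr 1
      simp only [e3, mul_sub, Finset.sum_sub_distrib]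
      have e5 : ∀ i, q p i * MvPolynomial.eval (x p) (MvPolynomial.pderiv (Sum.inl o) (F i)) =
          MvPolynomial.eval (y p) (MvPolynomial.pderiv o (g i)) * q p i -
          ∑ j, MvPolynomial.eval (y p) (MvPolynomial.pderiv o (g j)) *
            (q p i * MvPolynomial.eval (x p) (MvPolynomial.pderiv (Sum.inr j) (F i))) := by
        intro i
        have h1 : ∀ j, MvPolynomial.eval (y p) (MvPolynomial.pderiv o (g j)) *
            (q p i * MvPolynomial.eval (x p) (MvPolynomial.pderiv (Sum.inr j) (F i))) =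
            q p i * (MvPolynomial.eval (y p) (MvPolynomial.pderiv o (g j)) *
              MvPolynomial.eval (x p) (MvPolynomial.pderiv (Sum.inr j) (F i))) :=
          fun j => by ring
        simp only [h1]
        rw [← Finset.mul_sum]
        have h2 := e2 i
        linear_combination (-q p i) * h2
      simp only [e5, Finset.sum_sub_distrib]
      congr 1
      simp only [Finset.mul_sum]
      rw [Finset.sum_comm]
    · exact hq p j
  have hAe : ∀ p, ev (x p) A = ev (y p) A' := fun p => (ev_comp _ _ _).symm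
  have hb := bez3 (e + 1) 1 (e + 1) 2 (e + 2) 0 (hsys A F w1 w2)
    (fun p => hpt (x p) (k p) (h p) (q p)) ?_
    (fun p i => eval_hsys A F w1 w2 (x p) (k p) (h p) (q p) (by rw [hAe]; exact (hKB p).1)
      (by rw [hAe]; exact (hKB p).2.1) (hadj p) (fun j => by
        have h1 := eval_aeval (Sum.elim MvPolynomial.X g) (y p) (F j)
        rw [HDg.val j] at h1
        exact h1) (a1 p) (a2 p) (a3 p) i)
    (fun p => hsys_surj HDg H (y p) (x p) rfl (k p) (h p) w1 w2 (q p) (c p) (hH p) (hKB p) (hB p)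
      (hL p) (hT p) (hq p) (a1 p) (a2 p) (a3 p) (a4 p))
    (hsys_mem1 A F hA w1 w2) (hsys_mem2 A F hA hF w1 w2) (hsys_mem3 A F hF w1 w2) ?_ α β γ
  · simp only [Fintype.card_sum, Fintype.card_option, Fintype.card_fin] at hb
    have e2 : Fintype.card μ + Fintype.card μ = 2 * Fintype.card μ := by ring
    have e3 : 3 + (Fintype.card ν + 1 + L) = Fintype.card ν + 4 + L := by ring
    rw [e2, e3] at hb
    simp only [one_mul, zero_mul, add_zero] at hb
    exact hb
  · intro p p' hpp
    apply hy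
    funext o
    have h1 := congrFun hpp (Sum.inl (Sum.inr (Sum.inl o)))
    simpa [hpt, hx] using h1
  · simp only [Fintype.card_sum, Fintype.card_option, Fintype.card_fin]
    ring

end Pool.HY
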