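import Pool.Agent.Helper97.RQ.Gen
import Pool.Agent.Helper97.RQ.Chain

/-!
# Pfaffians of matrices of computed polynomials (MP_381749_lc)
-/

set_option autoImplicit false

namespace Pool.HY

open MvPolynomial Pool.CD Pool.PF

/-- the polynomials of degree at most `d` in the elements of `S` -/
noncomputable def Pol {σ : Type} (S : Set (MvPolynomial σ ℂ)) (d : ℕ) :
    Submodule ℂ (MvPolynomial σ ℂ) :=
  (Submodule.span ℂ ({1} ∪ S)) ^ d

/-- `g` is a program: `g j` is a polynomial of degree at most `d` in the variables and the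
`g i`, `i < j` -/
def Prog (d : ℕ) {σ : Type} {L : ℕ} (g : Fin L → MvPolynomial σ ℂ) : Prop :=
  ∀ j, g j ∈ Pol (Set.range X ∪ g '' Set.Iio j) d

/-- `P` is the Pfaffian of a matrix of size `2 m` whose entries are polynomials of degree at
most `δ` in the variables and the values of a program of length `L` -/
def HRep (m δ L : ℕ) {σ : Type} (P : MvPolynomial σ ℂ) : Prop :=
  ∃ g : Fin L → MvPolynomial σ ℂ, Prog (δ + 1) g ∧
    ∃ A : Matrix (Fin (2 * m)) (Fin (2 * m)) (MvPolynomial σ ℂ),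
      (∀ i j, A i j ∈ Pol (Set.range X ∪ Set.range g) δ) ∧ P = pf m A

/-- `G` is a limit of constant multiples of such Pfaffians -/
def Lim (m δ L : ℕ) {σ : Type} (G : MvPolynomial σ ℂ) : Prop :=
  ∀ ε : ℝ, 0 < ε → ∃ (P : MvPolynomial σ ℂ) (c : ℂ), HRep m δ L P ∧
    ∀ s, ‖coeff s (c • P) - coeff s G‖ < ε

theorem Pol_mono {σ : Type} {S T : Set (MvPolynomial σ ℂ)} (h : S ⊆ T) (d : ℕ) :
    Pol S d ≤ Pol T d := by
  unfold Pol
  exact pow_le_pow_left' (Submodule.span_mono (Set.union_subset_union_right _ h)) d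

theorem one_mem_Pol {σ : Type} (S : Set (MvPolynomial σ ℂ)) (d : ℕ) :
    (1 : MvPolynomial σ ℂ) ∈ Pol S d := by
  unfold Pol
  have h : (1 : MvPolynomial σ ℂ) ∈ Submodule.span ℂ ({1} ∪ S) :=
    Submodule.subset_span (Set.mem_union_left _ rfl)
  have := Submodule.pow_mem_pow _ h d
  rwa [one_pow] at this

theorem C_mem_Pol {σ : Type} (S : Set (MvPolynomial σ ℂ)) (d : ℕ) (c : ℂ) :
    (C c : MvPolynomial σ ℂ) ∈ Pol S d := by
  have := (Pol S d).smul_mem c (one_mem_Pol S d)
  rwa [smul_eq_C_mul, mul_one] at this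

end Pool.HY
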