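import Pool.Agent.Helper97.HY.Core
import Pool.Agent.Helper97.HY.Box

/-!
# Boxes around integer zeros of the permanent without zeros of Pfaffians of computed entries
(MP_381749_lc)
-/

set_option autoImplicit false

namespace Pool.HY

open MvPolynomial Pool.Agent.Helper24.SQ Pool.CD Pool.RQ

theorem final_box : ∃ c : ℝ, 0 < c ∧ ∀ n m δ L k : ℕ, 1 ≤ δ →
    (max m (n ^ 2) : ℕ) * δ * (2 * δ : ℝ) ^ ((L : ℝ) / (c * (n : ℝ) ^ 2)) < c * (n : ℝ) ^ 3 →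
    ∀ G : Fin k → MvPolynomial (Fin n × Fin n) ℂ,
    (∀ i, G i ≠ 0 ∧ Near (HCls m δ L) (G i)) →
    ∀ (α : Type) (q : Matrix (Fin n) (Fin n) ℝ → α),
    (∀ X : Matrix (Fin n) (Fin n) ℝ, (∀ i, eval (fun p => (X p.1 p.2 : ℂ)) (G i) ≠ 0) →
      ∃ ε : ℝ, 0 < ε ∧
        ∀ Y : Matrix (Fin n) (Fin n) ℝ, (∀ a b, |Y a b - X a b| < ε) → q Y = q X) →
    ∀ R : ℕ, ∃ X : Matrix (Fin n) (Fin n) ℤ, X.permanent = 0 ∧
      (∀ a b, (R : ℤ) ≤ |(X + Matrix.single a b 1).permanent| ∧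
        (X - Matrix.single a b 1).permanent = -(X + Matrix.single a b 1).permanent) ∧
      (∀ Y : Matrix (Fin n) (Fin n) ℂ, (∀ a b, ‖Y a b - X a b‖ ≤ R) →
        ∀ i, eval (fun p => Y p.1 p.2) (G i) ≠ 0) ∧
      ∀ Y : Matrix (Fin n) (Fin n) ℝ, (∀ a b, |Y a b - X a b| ≤ R) →
        q Y = q (X.map (Int.cast : ℤ → ℝ)) := by
  obtain ⟨c, hc, H⟩ := multiples
  refine ⟨min c 1, lt_min hc one_pos, fun n m δ L k hδ hlt G hG α q hq R => ?_⟩
  have hδR : (1 : ℝ) ≤ δ := by exact_mod_cast hδ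
  have hc' : 0 < min c 1 := lt_min hc one_pos
  have h2δ : (1 : ℝ) ≤ 2 * δ := by linarith
  -- `2 ≤ n`
  have hn : 2 ≤ n := by
    by_contra hcon
    have hle : n = 0 ∨ n = 1 := by omega
    rcases hle with rfl | rfl
    · have h1 : (0 : ℝ) ≤ ((max m (0 ^ 2) : ℕ) : ℝ) * δ *
          (2 * (δ : ℝ)) ^ ((L : ℝ) / (min c 1 * ((0 : ℕ) : ℝ) ^ 2)) := by positivity
      have h2 : min c 1 * ((0 : ℕ) : ℝ) ^ 3 = 0 := by simp
      rw [h2] at hlt
      exact absurd hlt (not_lt.2 h1)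
    · have h1 : (1 : ℝ) ≤ ((max m (1 ^ 2) : ℕ) : ℝ) := by
        have : 1 ≤ max m (1 ^ 2) := by simp
        exact_mod_cast this
      have h2 : (1 : ℝ) ≤ (2 * (δ : ℝ)) ^ ((L : ℝ) / (min c 1 * ((1 : ℕ) : ℝ) ^ 2)) :=
        Real.one_le_rpow h2δ (by positivity)
      have h3 : (1 : ℝ) ≤ ((max m (1 ^ 2) : ℕ) : ℝ) * δ *
          (2 * (δ : ℝ)) ^ ((L : ℝ) / (min c 1 * ((1 : ℕ) : ℝ) ^ 2)) := by
        have h4 : (1 : ℝ) ≤ ((max m (1 ^ 2) : ℕ) : ℝ) * δ := one_le_mul_of_one_le_of_one_le h1 hδR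
        exact one_le_mul_of_one_le_of_one_le h4 h2
      have h5 : min c 1 * ((1 : ℕ) : ℝ) ^ 3 ≤ 1 := by simp
      exact absurd hlt (not_lt.2 (h5.trans h3))
  have hnR : (0 : ℝ) < (n : ℝ) ^ 2 := by
    have : 0 < n := by omega
    positivity
  -- the bound with the constant `c`
  have hlt' : (max m (n ^ 2) : ℕ) * δ * (2 * δ : ℝ) ^ ((L : ℝ) / (c * (n : ℝ) ^ 2)) <
      c * (n : ℝ) ^ 3 := by
    have h1 : (L : ℝ) / (c * (n : ℝ) ^ 2) ≤ (L : ℝ) / (min c 1 * (n : ℝ) ^ 2) := by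
      apply div_le_div_of_nonneg_left (by positivity) (by positivity)
      exact mul_le_mul_of_nonneg_right (min_le_left _ _) hnR.le
    have h2 : (2 * δ : ℝ) ^ ((L : ℝ) / (c * (n : ℝ) ^ 2)) ≤
        (2 * δ : ℝ) ^ ((L : ℝ) / (min c 1 * (n : ℝ) ^ 2)) := Real.rpow_le_rpow_of_exponent_le h2δ h1
    calc ((max m (n ^ 2) : ℕ) : ℝ) * δ * (2 * δ : ℝ) ^ ((L : ℝ) / (c * (n : ℝ) ^ 2))
        ≤ ((max m (n ^ 2) : ℕ) : ℝ) * δ * (2 * δ : ℝ) ^ ((L : ℝ) / (min c 1 * (n : ℝ) ^ 2)) :=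
          mul_le_mul_of_nonneg_left h2 (by positivity)
      _ < min c 1 * (n : ℝ) ^ 3 := hlt
      _ ≤ c * (n : ℝ) ^ 3 := mul_le_mul_of_nonneg_right (min_le_left _ _) (by positivity)
  obtain ⟨X, hX, h1, h2⟩ := box_int n k hn G (fun i hi => by
    have h1 := Pool.PT.lim_top (HRep m δ L) (fun P t hP => (HCls m δ L).subst P _ hP fun x => by
      refine (totalDegree_mul _ _).trans ?_
      rw [totalDegree_C, zero_add, totalDegree_X]) (m * (δ * (δ + 1) ^ L))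
      (fun P hP => (HCls m δ L).le P hP) (G i) (hG i).1 fun ε hε => by
        obtain ⟨P, hP, hc⟩ := (hG i).2 ε hε
        exact ⟨P, 1, hP, by simpa using hc⟩
    exact absurd (H n m δ L hδ _ h1.1 hi h1.2) (not_le.2 hlt')) R
  refine ⟨X, hX, h1, h2, fun Y hY => ?_⟩
  have h3 := seg_const q (X.map (Int.cast : ℤ → ℝ)) (Y - X.map (Int.cast : ℤ → ℝ)) fun s hs => by
    apply hq
    intro i
    have h4 := h2 (Matrix.of fun a b => ((((X.map (Int.cast : ℤ → ℝ)) +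
      s • (Y - X.map (Int.cast : ℤ → ℝ))) a b : ℝ) : ℂ)) (fun a b => by
        rw [Matrix.of_apply, Matrix.add_apply, Matrix.smul_apply, Matrix.sub_apply,
          Matrix.map_apply, smul_eq_mul]
        have e1 : ((((X a b : ℤ) : ℝ) + s * (Y a b - ((X a b : ℤ) : ℝ)) : ℝ) : ℂ) -
            ((X a b : ℤ) : ℂ) = ((s * (Y a b - ((X a b : ℤ) : ℝ)) : ℝ) : ℂ) := by
          push_cast
          ring
        rw [e1, Complex.norm_real, Real.norm_eq_abs, abs_mul, abs_of_nonneg hs.1]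
        calc s * |Y a b - ((X a b : ℤ) : ℝ)| ≤ 1 * |Y a b - ((X a b : ℤ) : ℝ)| :=
              mul_le_mul_of_nonneg_right hs.2 (abs_nonneg _)
          _ = |Y a b - ((X a b : ℤ) : ℝ)| := one_mul _
          _ ≤ R := hY a b) i
    exact h4
  rw [add_sub_cancel] at h3
  exact h3

end Pool.HY
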