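import Pool.Agent.Helper97.RQ.IntPt

/-!
# Integer zeros of the permanent outside a hypersurface, with a bound (MP_381749_lc)
-/

set_option autoImplicit false

namespace Pool.HY

open MvPolynomial Pool.Agent.Helper24.SQ Pool.RQ

theorem permPoly_homog (n : ℕ) : (permPoly n).IsHomogeneous n := by
  unfold permPoly Matrix.permanent
  refine IsHomogeneous.sum _ _ _ fun σ _ => ?_
  have h := IsHomogeneous.prod (Finset.univ : Finset (Fin n))
    (fun i => (X (σ i, i) : MvPolynomial (Fin n × Fin n) ℂ)) (fun _ => 1)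
    (fun i _ => isHomogeneous_X ℂ _)
  simpa using h

/-- permanents of matrices with entries between `0` and `H` -/
theorem perm_bd {n : ℕ} (x : Fin n × Fin n → ℤ) (H : ℤ) (h0 : ∀ q, 0 ≤ x q) (h1 : ∀ q, x q ≤ H) :
    0 ≤ (Matrix.of fun i j => x (i, j)).permanent ∧
      (Matrix.of fun i j => x (i, j)).permanent ≤ (n.factorial : ℤ) * H ^ n := by
  unfold Matrix.permanent
  constructor
  · exact Finset.sum_nonneg fun σ _ => Finset.prod_nonneg fun i _ => h0 _
  · have h2 : ∀ σ ∈ (Finset.univ : Finset (Equiv.Perm (Fin n))),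
        ∏ i, (Matrix.of fun i j => x (i, j)) (σ i) i ≤ H ^ n := by
      intro σ _
      have := Finset.prod_le_prod (s := Finset.univ) (f := fun i => x (σ i, i))
        (g := fun _ => H) (fun i _ => h0 _) (fun i _ => h1 _)
      rwa [Finset.prod_const, Finset.card_univ, Fintype.card_fin] at this
    refine (Finset.sum_le_card_nsmul _ _ _ h2).trans ?_
    rw [Finset.card_univ, Fintype.card_perm, Fintype.card_fin, nsmul_eq_mul]

theorem perm_mono {n : ℕ} (x y : Fin n × Fin n → ℤ) (h0 : ∀ q, 0 ≤ x q) (h1 : ∀ q, x q ≤ y q) :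
    (Matrix.of fun i j => x (i, j)).permanent ≤ (Matrix.of fun i j => y (i, j)).permanent := by
  unfold Matrix.permanent
  exact Finset.sum_le_sum fun σ _ => Finset.prod_le_prod (fun i _ => h0 _) fun i _ => h1 _

/-- `permanent_row` for integer matrices -/
theorem perm_upd {n : ℕ} (z0 : Fin n) (x : Fin n × Fin n → ℤ) (t : ℤ) :
    (Matrix.of fun i j => Function.update x (z0, z0) t (i, j)).permanent =
      t * ((Matrix.of fun i j => Function.update x (z0, z0) 1 (i, j)).permanent -
        (Matrix.of fun i j => Function.update x (z0, z0) 0 (i, j)).permanent) +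
        (Matrix.of fun i j => Function.update x (z0, z0) 0 (i, j)).permanent := by
  have h := permanent_row z0 x 1 t
  rw [one_mul] at h
  rw [← h]
  congr 1
  ext i j
  simp only [Matrix.of_apply, one_mul]
  by_cases h1 : i = z0 ∧ j = z0
  · rw [if_pos h1, h1.1, h1.2, Function.update_self]
  · rw [if_neg h1, Function.update_of_ne, ite_self]
    intro h2
    exact h1 ⟨congrArg Prod.fst h2, congrArg Prod.snd h2⟩

/-- degree of a substitution -/
theorem totalDegree_aeval_le_mul {σ τ : Type*} (f : σ → MvPolynomial τ ℂ) (d : ℕ)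
    (hf : ∀ q, (f q).totalDegree ≤ d) (p : MvPolynomial σ ℂ) :
    (aeval f p).totalDegree ≤ d * p.totalDegree := by
  conv_lhs => rw [p.as_sum]
  rw [map_sum]
  refine totalDegree_finsetSum_le fun s hs => ?_
  rw [aeval_monomial, algebraMap_eq]
  refine (totalDegree_mul _ _).trans ?_
  rw [totalDegree_C, zero_add]
  refine le_trans ?_ (Nat.mul_le_mul_left d (le_totalDegree hs))
  rw [Finsupp.prod, Finsupp.sum, Finset.mul_sum]
  refine (totalDegree_finsetProd _ _).trans (Finset.sum_le_sum fun i _ => ?_)
  refine (totalDegree_pow _ _).trans ?_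
  rw [mul_comm d]
  exact Nat.mul_le_mul_left _ (hf i)

theorem int_pt_bd (n : ℕ) (hn : 1 ≤ n) (G : MvPolynomial (Fin n × Fin n) ℂ)
    (hG : ¬ permPoly n ∣ G) (H : ℕ) (hH : n * G.totalDegree < H) :
    ∃ X : Matrix (Fin n) (Fin n) ℤ, X.permanent = 0 ∧
      eval (fun q : Fin n × Fin n => (X q.1 q.2 : ℂ)) G ≠ 0 ∧
      ∀ a b, |X a b| ≤ (n.factorial : ℤ) * (H : ℤ) ^ n := by
  obtain ⟨z0, hz0⟩ : ∃ z0 : Fin n, z0.1 = 0 := ⟨⟨0, hn⟩, rfl⟩
  obtain ⟨a, b, ha, hb, hP, hae, hbe⟩ := perm_lin n (z0, z0)
  have hprime := perm_prime hn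
  have hhom := permPoly_homog n
  have hn1 : n - 1 + 1 = n := Nat.sub_add_cancel hn
  -- degrees
  have ha_hom : a.IsHomogeneous (n - 1) := by
    rw [← pderiv_lin ha hb hP]
    exact hhom.pderiv
  have hb_hom : b.IsHomogeneous n := by
    have h1 : b = permPoly n - X (z0, z0) * a := by rw [hP]; ring
    rw [h1]
    refine hhom.sub ?_
    have := (isHomogeneous_X ℂ (z0, z0)).mul ha_hom
    rwa [add_comm 1, hn1] at this
  -- values of `a`, `b` after the change of the first row
  let ph : ℂ → (Fin n × Fin n → ℂ) → Fin n × Fin n → ℂ := fun A x q =>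
    if q.1 = z0 ∧ q.2 = z0 then 0 else if q.1 = z0 then A * x q else x q
  have hupd : ∀ (A t : ℂ) (x : Fin n × Fin n → ℂ),
      eval (Function.update (ph A x) (z0, z0) t) (permPoly n) =
        t * eval x a + A * eval x b := by
    intro A t x
    rw [hae, hbe, eval_permPoly, eval_permPoly, eval_permPoly, ← permanent_row]
    congr 1
    ext i j
    rw [Matrix.of_apply, Matrix.of_apply]
    by_cases h : i = z0 ∧ j = z0
    · obtain ⟨rfl, rfl⟩ := h
      simp
    · rw [if_neg h, Function.update_of_ne]
      · simp only [ph]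
        rw [if_neg h]
      · intro h'
        exact h ⟨congrArg Prod.fst h', congrArg Prod.snd h'⟩
  have hpa : ∀ (A : ℂ) (x : Fin n × Fin n → ℂ), eval (ph A x) a = eval x a := by
    intro A x
    rw [hae, hupd, hupd]
    ring
  have hpb : ∀ (A : ℂ) (x : Fin n × Fin n → ℂ), eval (ph A x) b = A * eval x b := by
    intro A x
    rw [hbe, hupd]
    ring
  have ha0 : a ≠ 0 := by
    intro h
    have h1 := hae (fun q => if q.1 = q.2 then 1 else 0)
    rw [h, map_zero, eval_permPoly, eval_permPoly] at h1
    have h2 : (Matrix.of fun i j => Function.update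
        (fun q : Fin n × Fin n => if q.1 = q.2 then (1 : ℂ) else 0) (z0, z0) 1 (i, j)) = 1 := by
      ext i j
      rw [Matrix.of_apply, Matrix.one_apply]
      by_cases h3 : (i, j) = (z0, z0)
      · rw [h3, Function.update_self]
        simp only [Prod.mk.injEq] at h3
        rw [h3.1, h3.2, if_pos rfl]
      · rw [Function.update_of_ne h3]
    have h4 : (Matrix.of fun i j => Function.update
        (fun q : Fin n × Fin n => if q.1 = q.2 then (1 : ℂ) else 0) (z0, z0) 0 (i, j)).permanent
        = 0 := by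
      refine Finset.sum_eq_zero fun s _ => ?_
      by_cases hs : s z0 = z0
      · refine Finset.prod_eq_zero (Finset.mem_univ z0) ?_
        rw [Matrix.of_apply, hs, Function.update_self]
      · refine Finset.prod_eq_zero (Finset.mem_univ z0) ?_
        rw [Matrix.of_apply, Function.update_of_ne]
        · exact if_neg hs
        · intro h'
          exact hs (congrArg Prod.fst h')
    rw [h2, h4, Matrix.permanent_one] at h1
    norm_num at h1
  have hndvd : ¬ permPoly n ∣ a := by
    rintro ⟨c, hc⟩
    have hc0 : c ≠ 0 := by rintro rfl; exact ha0 (by rw [hc, mul_zero])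
    have h1 : a.totalDegree = n + c.totalDegree := by
      rw [hc, totalDegree_mul_of_isDomain hprime.ne_zero hc0,
        hhom.totalDegree hprime.ne_zero]
    rw [ha_hom.totalDegree ha0] at h1
    omega
  -- an integer zero of the permanent with `a ≠ 0`
  obtain ⟨X0, hX0, hX1⟩ := int_pt n hn (G * a) (fun h => (hprime.dvd_or_dvd h).elim hG hndvd)
  rw [map_mul] at hX1
  have hXG := left_ne_zero_of_mul hX1
  have hXa := right_ne_zero_of_mul hX1
  clear hX1
  set x0 : Fin n × Fin n → ℂ := fun q => (X0 q.1 q.2 : ℂ) with hx0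
  have hperm0 : x0 (z0, z0) * eval x0 a + eval x0 b = 0 := by
    have h1 := eval_perm_int (fun q : Fin n × Fin n => X0 q.1 q.2)
    have h2 : (Matrix.of fun i j => X0 i j) = X0 := rfl
    rw [h2, hX0, Int.cast_zero, ← hx0, hP, map_add, map_mul, eval_X] at h1
    exact h1
  -- the polynomial `G` after the substitution
  let sb : Fin n × Fin n → MvPolynomial (Fin n × Fin n) ℂ := fun q =>
    if q.1 = z0 ∧ q.2 = z0 then -b else if q.1 = z0 then a * X q else X q
  have hsb : ∀ x : Fin n × Fin n → ℂ, eval x (aeval sb G) =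
      eval (fun q => if q.1 = z0 ∧ q.2 = z0 then -eval x b else if q.1 = z0 then
        eval x a * x q else x q) G := by
    intro x
    rw [← MvPolynomial.coe_aeval_eq_eval, ← MvPolynomial.coe_aeval_eq_eval]
    simp only [RingHom.coe_coe]
    rw [← AlgHom.comp_apply, MvPolynomial.comp_aeval]
    congr 2
    funext q
    simp only [sb]
    split_ifs <;> simp
  have hdeg : ∀ q, (sb q).totalDegree ≤ n := by
    intro q
    simp only [sb]
    split_ifs
    · rw [totalDegree_neg]
      exact hb_hom.totalDegree_le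
    · refine (totalDegree_mul _ _).trans ?_
      rw [totalDegree_X]
      have := ha_hom.totalDegree_le
      omega
    · rw [totalDegree_X]
      exact hn
  have hW0 : aeval sb G ≠ 0 := by
    intro h
    have h1 := hsb (ph (eval x0 a)⁻¹ x0)
    rw [h, map_zero, hpa, hpb] at h1
    apply hXG
    rw [h1]
    congr 1
    congr 1
    funext q
    by_cases hq : q.1 = z0 ∧ q.2 = z0
    · rw [if_pos hq]
      have hq' : q = (z0, z0) := Prod.ext hq.1 hq.2
      rw [hq']
      have h2 : eval x0 b = -(x0 (z0, z0) * eval x0 a) := by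
        rw [← add_eq_zero_iff_eq_neg, add_comm]
        exact hperm0
      rw [h2]
      field_simp
    · rw [if_neg hq]
      simp only [ph]
      rw [if_neg hq]
      split_ifs
      · field_simp
      · rfl
  -- a small integer point
  obtain ⟨z, hz0', hz1, hz2⟩ : ∃ z : Fin n × Fin n → ℤ, (∀ q, 0 ≤ z q) ∧ (∀ q, z q ≤ H) ∧
      eval (fun q => (z q : ℂ)) (aeval sb G) ≠ 0 := by
    by_contra hcon
    push Not at hcon
    apply hW0
    refine eq_zero_of_eval_zero_at_prod_finset _
      (fun _ => (Finset.range H).map ⟨fun k : ℕ => (k : ℂ), Nat.cast_injective⟩) (fun q => ?_)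
      fun x hx => ?_
    · rw [Finset.card_map, Finset.card_range]
      exact (degreeOf_le_totalDegree _ _).trans_lt
        ((totalDegree_aeval_le_mul sb n hdeg G).trans_lt hH)
    · choose y hy using fun q => Finset.mem_map.1 (hx q)
      have h1 : x = fun q => (((y q : ℕ) : ℤ) : ℂ) := by
        funext q
        rw [← (hy q).2]
        simp
      rw [h1]
      refine hcon (fun q => (y q : ℤ)) (fun q => Int.natCast_nonneg _) fun q => ?_
      have := Finset.mem_range.1 (hy q).1
      exact_mod_cast this.le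
  rw [hsb] at hz2
  -- integer values of `a` and `b`
  set A : ℤ := (Matrix.of fun i j => Function.update z (z0, z0) 1 (i, j)).permanent -
      (Matrix.of fun i j => Function.update z (z0, z0) 0 (i, j)).permanent with hA'
  set B : ℤ := (Matrix.of fun i j => Function.update z (z0, z0) 0 (i, j)).permanent with hB'
  have hA : eval (fun q => (z q : ℂ)) a = A := by
    rw [hae]
    have h1 := update_cast z (z0, z0) 1
    have h0 := update_cast z (z0, z0) 0
    rw [Int.cast_one] at h1
    rw [Int.cast_zero] at h0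
    rw [h1, h0, eval_perm_int, eval_perm_int, hA', Int.cast_sub]
  have hB : eval (fun q => (z q : ℂ)) b = B := by
    rw [hbe]
    have h0 := update_cast z (z0, z0) 0
    rw [Int.cast_zero] at h0
    rw [h0, eval_perm_int]
  rw [hA, hB] at hz2
  have hH1 : (1 : ℤ) ≤ H := by
    have : 0 < H := lt_of_le_of_lt (Nat.zero_le _) hH
    exact_mod_cast this
  have hupd0 : ∀ t : ℤ, 0 ≤ t → ∀ q, 0 ≤ Function.update z (z0, z0) t q := by
    intro t ht q
    by_cases hq : q = (z0, z0)
    · rw [hq, Function.update_self]; exact ht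
    · rw [Function.update_of_ne hq]; exact hz0' q
  have hupd1 : ∀ t : ℤ, t ≤ H → ∀ q, Function.update z (z0, z0) t q ≤ H := by
    intro t ht q
    by_cases hq : q = (z0, z0)
    · rw [hq, Function.update_self]; exact ht
    · rw [Function.update_of_ne hq]; exact hz1 q
  have hB0 := perm_bd (Function.update z (z0, z0) 0) H (hupd0 0 le_rfl) (hupd1 0 (by omega))
  have hA0 : 0 ≤ A := by
    rw [hA', sub_nonneg]
    refine perm_mono _ _ (hupd0 0 le_rfl) fun q => ?_
    by_cases hq : q = (z0, z0)
    · rw [hq, Function.update_self, Function.update_self]; exact zero_le_one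
    · rw [Function.update_of_ne hq, Function.update_of_ne hq]
  have hAH : A * H ≤ (n.factorial : ℤ) * (H : ℤ) ^ n := by
    have h1 := perm_upd z0 z H
    have h2 := (perm_bd (Function.update z (z0, z0) H) H (hupd0 H (by omega))
      (hupd1 H le_rfl)).2
    rw [h1, ← hA', ← hB'] at h2
    have h3 : 0 ≤ B := hB0.1
    rw [mul_comm A]
    omega
  have hfac : (H : ℤ) ≤ (n.factorial : ℤ) * (H : ℤ) ^ n := by
    have h1 : (1 : ℤ) ≤ n.factorial := by exact_mod_cast Nat.factorial_pos n
    have h2 : (H : ℤ) ≤ (H : ℤ) ^ n := le_self_pow₀ hH1 (by omega)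
    calc (H : ℤ) ≤ (H : ℤ) ^ n := h2
      _ = 1 * (H : ℤ) ^ n := (one_mul _).symm
      _ ≤ (n.factorial : ℤ) * (H : ℤ) ^ n := mul_le_mul_of_nonneg_right h1 (by positivity)
  let Y : Fin n × Fin n → ℤ := fun q =>
    if q.1 = z0 ∧ q.2 = z0 then -B else if q.1 = z0 then A * z q else z q
  have hY : (fun q => (Y q : ℂ)) =
      Function.update (ph A (fun q => (z q : ℂ))) (z0, z0) (-(B : ℂ)) := by
    funext q
    by_cases h : q.1 = z0 ∧ q.2 = z0
    · have hq : q = (z0, z0) := Prod.ext h.1 h.2
      rw [hq, Function.update_self]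
      simp [Y]
    · rw [Function.update_of_ne]
      · simp only [Y, ph]
        rw [if_neg h, if_neg h]
        split_ifs <;> simp
      · rintro rfl
        exact h ⟨rfl, rfl⟩
  refine ⟨Matrix.of fun i j => Y (i, j), ?_, ?_, ?_⟩
  · have h1 := eval_perm_int Y
    rw [hY, hupd, hA, hB] at h1
    have h2 : (((Matrix.of fun i j => Y (i, j)).permanent : ℤ) : ℂ) = 0 := by
      rw [← h1]
      ring
    exact_mod_cast h2
  · have h1 : (fun q : Fin n × Fin n => (((Matrix.of fun i j => Y (i, j)) q.1 q.2 : ℤ) : ℂ)) =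
        fun q => if q.1 = z0 ∧ q.2 = z0 then -(B : ℂ) else if q.1 = z0 then
          (A : ℂ) * (z q : ℂ) else (z q : ℂ) := by
      funext q
      simp only [Matrix.of_apply, Y]
      split_ifs <;> simp
    rw [h1]
    exact hz2
  · intro i j
    simp only [Matrix.of_apply, Y]
    split_ifs
    · rw [abs_neg, abs_of_nonneg hB0.1]
      exact hB0.2
    · rw [abs_of_nonneg (mul_nonneg hA0 (hz0' _))]
      exact (mul_le_mul_of_nonneg_left (hz1 _) hA0).trans hAH
    · rw [abs_of_nonneg (hz0' _)]
      exact (hz1 _).trans hfac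

end Pool.HY
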