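import Pool.Agent.Helper97.HY.Sys

/-!
# Surjectivity of the Jacobian of the Lagrange system (MP_381749_lc)
-/

set_option autoImplicit false

namespace Pool.HY

open Finset Matrix Pool.CD Bez

variable {K : Type*} [Field K] {μ ν : Type*} [Fintype μ] [DecidableEq μ] [Fintype ν]
  [DecidableEq ν] {L : ℕ}

/-- the linear part of the program is invertible -/
theorem det_tri (T : Matrix (Fin L) (Fin L) K) (hT : ∀ i j, i ≤ j → T i j = 0) :
    (1 - T).det = 1 := by
  rw [Matrix.det_of_lowerTriangular]
  · refine Finset.prod_eq_one fun i _ => ?_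
    rw [Matrix.sub_apply, one_apply_eq, hT i i le_rfl, sub_zero]
  · intro i j hij
    have h1 : i < j := hij
    rw [Matrix.sub_apply, one_apply_ne h1.ne, hT i j h1.le, sub_zero]

theorem tri_mulVec {T : Matrix (Fin L) (Fin L) K} (hT : ∀ i j, i ≤ j → T i j = 0)
    {v : Fin L → K} (hv : ∀ j, v j = ∑ i, T j i * v i) : v = 0 := by
  have h1 : (1 - T) *ᵥ v = 0 := by
    ext j
    rw [sub_mulVec, one_mulVec, Pi.sub_apply, Pi.zero_apply, sub_eq_zero]
    exact hv j
  have h2 : IsUnit (1 - T).det := by rw [det_tri T hT]; exact isUnit_one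
  have h3 := congrArg (fun z => (1 - T)⁻¹ *ᵥ z) h1
  simpa [mulVec_mulVec, Matrix.nonsing_inv_mul _ h2] using h3

theorem tri_vecMul {T : Matrix (Fin L) (Fin L) K} (hT : ∀ i j, i ≤ j → T i j = 0)
    {v : Fin L → K} (hv : ∀ j, v j = ∑ i, v i * T i j) : v = 0 := by
  have h1 : v ᵥ* (1 - T) = 0 := by
    ext j
    rw [vecMul_sub, vecMul_one, Pi.sub_apply, Pi.zero_apply, sub_eq_zero]
    exact hv j
  have h2 : IsUnit (1 - T).det := by rw [det_tri T hT]; exact isUnit_one
  have h3 := congrArg (fun z => z ᵥ* (1 - T)⁻¹) h1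
  simpa [vecMul_vecMul, Matrix.mul_nonsing_inv _ h2] using h3

theorem tri_exists {T : Matrix (Fin L) (Fin L) K} (hT : ∀ i j, i ≤ j → T i j = 0)
    (κ : Fin L → K) : ∃ q : Fin L → K, ∀ j, κ j + ∑ i, q i * T i j = q j := by
  have h2 : IsUnit (1 - T).det := by rw [det_tri T hT]; exact isUnit_one
  refine ⟨κ ᵥ* (1 - T)⁻¹, fun j => ?_⟩
  set q := κ ᵥ* (1 - T)⁻¹ with hq
  have h1 : q ᵥ* (1 - T) = κ := by
    rw [hq, vecMul_vecMul, Matrix.nonsing_inv_mul _ h2, vecMul_one]
  have h3 := congrFun h1 j
  rw [vecMul_sub, vecMul_one, Pi.sub_apply] at h3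
  have h4 : (q ᵥ* T) j = ∑ i, q i * T i j := rfl
  rw [← h3, h4]
  ring

/-- the composite matrix -/
noncomputable abbrev comp (Γ : Option ν ⊕ Fin L → MvPolynomial (Option ν) K)
    (A : Matrix μ μ (MvPolynomial (Option ν ⊕ Fin L) K)) :
    Matrix μ μ (MvPolynomial (Option ν) K) := A.map (MvPolynomial.aeval Γ)

theorem ev_comp (Γ : Option ν ⊕ Fin L → MvPolynomial (Option ν) K) (y : Option ν → K)
    (A : Matrix μ μ (MvPolynomial (Option ν ⊕ Fin L) K)) :
    ev y (comp Γ A) = ev (fun s => MvPolynomial.eval y (Γ s)) A := by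
  ext a b
  simp only [ev, comp, map_apply, eval_aeval]

/-- first derivatives of the composite matrix -/
theorem dv_comp (Γ : Option ν ⊕ Fin L → MvPolynomial (Option ν) K) (y : Option ν → K)
    (o : Option ν) (A : Matrix μ μ (MvPolynomial (Option ν ⊕ Fin L) K)) :
    dv y o (comp Γ A) = ∑ s, MvPolynomial.eval y (MvPolynomial.pderiv o (Γ s)) •
      dv (fun s => MvPolynomial.eval y (Γ s)) s A := by
  ext a b
  simp only [dv, comp, map_apply, Matrix.sum_apply, Matrix.smul_apply, smul_eq_mul]
  exact c1 Γ y _ o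

/-- the derivative of the composite matrix along `u` -/
theorem du_comp (Γ : Option ν ⊕ Fin L → MvPolynomial (Option ν) K) (y u : Option ν → K)
    (A : Matrix μ μ (MvPolynomial (Option ν ⊕ Fin L) K)) :
    ∑ o, u o • dv y o (comp Γ A) = A.map (Du Γ y u) := by
  ext a b
  simp only [dv, comp, map_apply, Matrix.sum_apply, Matrix.smul_apply, smul_eq_mul, Du]

/-- second derivatives of the composite matrix -/
theorem ddv_comp (Γ : Option ν ⊕ Fin L → MvPolynomial (Option ν) K) (y u : Option ν → K)
    (o : Option ν) (A : Matrix μ μ (MvPolynomial (Option ν ⊕ Fin L) K)) :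
    ∑ j, u j • ddv y j o (comp Γ A) =
      ∑ s, (MvPolynomial.eval y (MvPolynomial.pderiv o (Γ s)) •
          (A.map (MvPolynomial.pderiv s)).map (Du Γ y u) +
        (∑ j, u j * MvPolynomial.eval y (MvPolynomial.pderiv j (MvPolynomial.pderiv o (Γ s)))) •
          dv (fun s => MvPolynomial.eval y (Γ s)) s A) := by
  ext a b
  simp only [ddv, comp, dv, map_apply, Matrix.sum_apply, Matrix.smul_apply, smul_eq_mul,
    Matrix.add_apply]
  exact c2 Γ y u _ o

/-- the data of a computed Pfaffian -/
structure HD (A : Matrix μ μ (MvPolynomial (Option ν ⊕ Fin L) K))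
    (F : Fin L → MvPolynomial (Option ν ⊕ Fin L) K)
    (g : Fin L → MvPolynomial (Option ν) K) : Prop where
  tri : ∀ j i, j ≤ i → MvPolynomial.pderiv (Sum.inr i) (F j) = 0
  val : ∀ j, MvPolynomial.aeval (Sum.elim MvPolynomial.X g) (F j) = g j

/-- surjectivity of the Jacobian of the system at a nondegenerate critical point -/
theorem hsys_surj [CharZero K] {A : Matrix μ μ (MvPolynomial (Option ν ⊕ Fin L) K)}
    {F : Fin L → MvPolynomial (Option ν ⊕ Fin L) K} {g : Fin L → MvPolynomial (Option ν) K}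
    (HD : HD A F g) {B : Matrix μ μ (MvPolynomial (Option ν) K)}
    {P : MvPolynomial (Option ν) K} (H : PD (comp (Sum.elim MvPolynomial.X g) A) B P)
    (y : Option ν → K) (x : Option ν ⊕ Fin L → K)
    (hx : x = fun s => MvPolynomial.eval y (Sum.elim MvPolynomial.X g s))
    (k h w1 w2 : μ → K) (q : Fin L → K) (c : K)
    (hH : ∀ u : ν → K, (∀ v, ∑ j, MvPolynomial.eval y
      (MvPolynomial.pderiv (some j) (MvPolynomial.pderiv (some v) P)) * u j = 0) → u = 0)
    (hKB : KB (ev y (comp (Sum.elim MvPolynomial.X g) A)) k h)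
    (hB : ev y B = c • (vecMulVec h k - vecMulVec k h))
    (hL : ∀ v, k ⬝ᵥ (dv y (some v) (comp (Sum.elim MvPolynomial.X g) A) *ᵥ h) = 0)
    (hT : k ⬝ᵥ (dv y none (comp (Sum.elim MvPolynomial.X g) A) *ᵥ h) = 1)
    (hq : ∀ j, k ⬝ᵥ (dv x (Sum.inr j) A *ᵥ h) +
      ∑ i, q i * MvPolynomial.eval x (MvPolynomial.pderiv (Sum.inr j) (F i)) = q j)
    (hw1 : w1 ⬝ᵥ k = 1) (hw2 : w2 ⬝ᵥ k = 0) (hw3 : w1 ⬝ᵥ h = 0) (hw4 : w2 ⬝ᵥ h ≠ 0) :
    Function.Surjective (jac (hsys A F w1 w2) (hpt x k h q)) := by
  set Γ : Option ν ⊕ Fin L → MvPolynomial (Option ν) K := Sum.elim MvPolynomial.X g with hΓ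
  refine jac_surj_of_inj _ _ ?_ ?_
  · simp only [Fintype.card_sum, Fintype.card_option]
    ring
  intro V hV
  have hV' : ∀ i, (Polynomial.derivative (ln (hpt x k h q) V (hsys A F w1 w2 i))).eval 0 = 0 := by
    intro i
    rw [← jac_eq_ln]
    exact congrFun hV i
  set u : Option ν → K := fun o => V (Sum.inl (Sum.inr (Sum.inl o))) with hu
  set T : Matrix (Fin L) (Fin L) K := Matrix.of fun j i =>
    MvPolynomial.eval x (MvPolynomial.pderiv (Sum.inr i) (F j)) with hTd
  have hTri : ∀ i j, i ≤ j → T i j = 0 := by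
    intro i j hij
    rw [hTd, Matrix.of_apply, HD.tri i j hij, map_zero]
  -- the direction is tangent to the graph of the program
  have hW : ∀ s, V (Sum.inl (Sum.inr s)) =
      ∑ o, u o * MvPolynomial.eval y (MvPolynomial.pderiv o (Γ s)) := by
    have h1 : ∀ o' : Option ν, V (Sum.inl (Sum.inr (Sum.inl o'))) =
        ∑ o, u o * MvPolynomial.eval y (MvPolynomial.pderiv o (Γ (Sum.inl o'))) := by
      intro o'
      rw [Finset.sum_eq_single o']
      · simp [hΓ, hu]
      · intro b _ hb
        have : MvPolynomial.pderiv b (Γ (Sum.inl o')) = 0 := by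
          simp only [hΓ, Sum.elim_inl]
          exact MvPolynomial.pderiv_X_of_ne (Ne.symm hb)
        rw [this, map_zero, mul_zero]
      · intro h
        exact absurd (Finset.mem_univ _) h
    have h2 : (fun j : Fin L => V (Sum.inl (Sum.inr (Sum.inr j))) -
        ∑ o, u o * MvPolynomial.eval y (MvPolynomial.pderiv o (Γ (Sum.inr j)))) = 0 := by
      refine tri_mulVec hTri fun j => ?_
      have h3 := hV' (Sum.inr j)
      simp only [hsys, gder_sub, gder_X, der_ren] at h3
      rw [Fintype.sum_sum_type] at h3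
      have h4 : ∑ o, u o * MvPolynomial.eval y (MvPolynomial.pderiv o (Γ (Sum.inr j))) =
          Du Γ y u (F j) := by
        unfold Du
        rw [HD.val j]
        rfl
      have h5 := Du_eq Γ y u (F j)
      rw [← hx, Fintype.sum_sum_type] at h5
      simp only [← h1] at h5
      rw [h4]
      simp only [hTd, Matrix.of_apply, mul_sub, Finset.sum_sub_distrib]
      have h6 : ∀ i, MvPolynomial.eval x (MvPolynomial.pderiv (Sum.inr i) (F j)) *
          V (Sum.inl (Sum.inr (Sum.inr i))) = V (Sum.inl (Sum.inr (Sum.inr i))) *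
          MvPolynomial.eval x (MvPolynomial.pderiv (Sum.inr i) (F j)) := fun i => mul_comm _ _
      have h7 : ∀ i, MvPolynomial.eval x (MvPolynomial.pderiv (Sum.inr i) (F j)) *
          (∑ o, u o * MvPolynomial.eval y (MvPolynomial.pderiv o (Γ (Sum.inr i)))) =
          (∑ o, u o * MvPolynomial.eval y (MvPolynomial.pderiv o (Γ (Sum.inr i)))) *
          MvPolynomial.eval x (MvPolynomial.pderiv (Sum.inr i) (F j)) := fun i => mul_comm _ _
      simp only [h6, h7]
      rw [h5]
      linear_combination h3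
    intro s
    rcases s with o | j
    · exact h1 o
    · exact sub_eq_zero.1 (congrFun h2 j)
  have hDu : ∀ p : MvPolynomial (Option ν ⊕ Fin L) K,
      ∑ s, V (Sum.inl (Sum.inr s)) * MvPolynomial.eval x (MvPolynomial.pderiv s p) =
        Du Γ y u p := by
    intro p
    rw [Du_eq, ← hx]
    exact Finset.sum_congr rfl fun s _ => by rw [hW s]
  have hDuM : ∀ M : Matrix μ μ (MvPolynomial (Option ν ⊕ Fin L) K),
      ∑ s, V (Sum.inl (Sum.inr s)) • dv x s M = M.map (Du Γ y u) := by
    intro M
    ext a b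
    simp only [dv, map_apply, Matrix.sum_apply, Matrix.smul_apply, smul_eq_mul]
    exact hDu _
  have hevd : ∀ s, ev x (A.map (MvPolynomial.pderiv s)) = dv x s A := by
    intro s
    ext a b
    simp only [ev, dv, map_apply]
  set k' : μ → K := fun b => V (Sum.inr (Sum.inl (Sum.inl b))) with hk'
  set h' : μ → K := fun b => V (Sum.inr (Sum.inl (Sum.inr b))) with hh'
  set q' : Fin L → K := fun i => V (Sum.inr (Sum.inr i)) with hq'
  -- the adjoint equations
  set φ : Option ν ⊕ Fin L → K := fun s => k' ⬝ᵥ (dv x s A *ᵥ h) + k ⬝ᵥ (dv x s A *ᵥ h') +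
    k ⬝ᵥ ((A.map (MvPolynomial.pderiv s)).map (Du Γ y u) *ᵥ h) with hφ
  set ρ : Option ν ⊕ Fin L → K := Sum.elim (fun _ => 0) q' with hρ
  have hadj : ∀ s, φ s + ∑ i, q' i * MvPolynomial.eval x (MvPolynomial.pderiv s (F i)) +
      ∑ i, q i * Du Γ y u (MvPolynomial.pderiv s (F i)) = ρ s := by
    intro s
    have h3 : (Polynomial.derivative (ln (hpt x k h q) V (qf (A.map (MvPolynomial.pderiv s)) +
        (∑ i, XG i * ren (MvPolynomial.pderiv s (F i))) - rhs s))).eval 0 = 0 :=
      hV' (Sum.inl (Sum.inr (Sum.inr s)))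
    have h4 : (Polynomial.derivative (ln (hpt x k h q) V (rhs s : MvPolynomial (VT μ ν L) K))).eval 0
        = ρ s := by
      rcases s with o | j
      · simp only [rhs, hρ, Sum.elim_inl, gder_C]
      · simp only [rhs, hρ, Sum.elim_inr, gder_X, hq']
    rw [gder_sub, h4, map_add, Polynomial.derivative_add, Polynomial.eval_add, der_qf, gder_sum,
      hDuM, hevd] at h3
    simp only [gder_mul, gder_X, der_ren, hDu, eval_ren, MvPolynomial.eval_X, hpt] at h3
    rw [Finset.sum_add_distrib] at h3
    rw [hφ]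
    linear_combination h3
  -- the derivative equations of the composite matrix
  have hcomb : ∀ o : Option ν, k' ⬝ᵥ (dv y o (comp Γ A) *ᵥ h) + k ⬝ᵥ (dv y o (comp Γ A) *ᵥ h') +
      k ⬝ᵥ ((∑ j, u j • ddv y j o (comp Γ A)) *ᵥ h) = 0 := by
    intro o
    set W : Option ν ⊕ Fin L → K := fun s => MvPolynomial.eval y (MvPolynomial.pderiv o (Γ s))
      with hWd
    set W' : Option ν ⊕ Fin L → K := fun s =>
      ∑ j, u j * MvPolynomial.eval y (MvPolynomial.pderiv j (MvPolynomial.pderiv o (Γ s))) with hWd'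
    have hWl : ∀ o', W (Sum.inl o') = if o' = o then 1 else 0 := by
      intro o'
      simp only [hWd, hΓ, Sum.elim_inl]
      split_ifs with h0
      · rw [h0, MvPolynomial.pderiv_X_self, map_one]
      · rw [MvPolynomial.pderiv_X_of_ne h0, map_zero]
    have hWl' : ∀ o', W' (Sum.inl o') = 0 := by
      intro o'
      simp only [hWd', hΓ, Sum.elim_inl]
      refine Finset.sum_eq_zero fun j _ => ?_
      by_cases h0 : o' = o
      · rw [h0, MvPolynomial.pderiv_X_self]
        simp
      · rw [MvPolynomial.pderiv_X_of_ne h0, map_zero, map_zero, mul_zero]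
    have key := comb W W' φ (fun s => k ⬝ᵥ (dv x s A *ᵥ h)) ρ
      (fun i s => MvPolynomial.eval x (MvPolynomial.pderiv s (F i)))
      (fun i s => Du Γ y u (MvPolynomial.pderiv s (F i))) q q'
      (fun i => W (Sum.inr i)) (fun i => W' (Sum.inr i)) hadj ?_ ?_ ?_ ?_
    · rw [← key, dv_comp, ddv_comp, ← hx]
      simp only [sum_mulVec, add_mulVec, smul_mulVec, dotProduct_sum, dotProduct_add,
        dotProduct_smul, smul_eq_mul, ← Finset.sum_add_distrib, hφ, hWd, hWd']
      exact Finset.sum_congr rfl fun s _ => by ring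
    · rw [Fintype.sum_sum_type]
      simp only [hρ, Sum.elim_inl, Sum.elim_inr, mul_zero, Finset.sum_const_zero, zero_add]
      exact Finset.sum_congr rfl fun i _ => mul_comm _ _
    · have e1 : ∀ i, ∑ s, W' s * MvPolynomial.eval x (MvPolynomial.pderiv s (F i)) =
          ∑ j, W' (Sum.inr j) * T i j := by
        intro i
        rw [Fintype.sum_sum_type]
        simp only [hWl', zero_mul, Finset.sum_const_zero, zero_add, hTd, Matrix.of_apply]
      simp only [e1]
      rw [Fintype.sum_sum_type]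
      simp only [hWl', zero_mul, Finset.sum_const_zero, zero_add]
      have e2 : ∀ j, k ⬝ᵥ (dv x (Sum.inr j) A *ᵥ h) = q j - ∑ i, q i * T i j := by
        intro j
        have := hq j
        simp only [hTd, Matrix.of_apply]
        linear_combination this
      simp only [e2, mul_sub, Finset.sum_sub_distrib]
      congr 1
      · exact Finset.sum_congr rfl fun i _ => mul_comm _ _
      · simp only [Finset.mul_sum]
        rw [Finset.sum_comm]
        exact Finset.sum_congr rfl fun i _ => Finset.sum_congr rfl fun j _ => by ring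
    · intro i
      have h1 := c1 Γ y (F i) o
      rw [HD.val i, ← hx] at h1
      exact h1
    · intro i
      have h1 := c2 Γ y u (F i) o
      rw [HD.val i, ← hx] at h1
      exact h1
  have hAe : ev x A = ev y (comp Γ A) := by
    rw [ev_comp, hx]
  have key := plin_zero H y k h w1 w2 c hH hKB hB hL hT hw1 hw2 hw3 hw4
    u (V (Sum.inl (Sum.inl 0))) (V (Sum.inl (Sum.inl 1)))
    (V (Sum.inl (Sum.inl 2))) k' h' ?_ ?_ (fun v => hcomb (some v)) (hcomb none) ?_ ?_ ?_
  · obtain ⟨z1, z2, z3, z4, z5, z6⟩ := key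
    have hWz : ∀ s, V (Sum.inl (Sum.inr s)) = 0 := by
      intro s
      rw [hW s, z1]
      simp
    have hDz : ∀ p, Du Γ y u p = 0 := by
      intro p
      rw [← hDu]
      exact Finset.sum_eq_zero fun s _ => by rw [hWz, zero_mul]
    have hqz : q' = 0 := by
      refine tri_vecMul hTri fun j => ?_
      have h1 := hadj (Sum.inr j)
      have h2 : φ (Sum.inr j) = 0 := by
        have h3 : (A.map (MvPolynomial.pderiv (Sum.inr j))).map (Du Γ y u) = 0 := by
          ext a b
          simp only [map_apply, hDz, Matrix.zero_apply]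
        simp only [hφ, z5, z6, h3, zero_dotProduct, mulVec_zero, dotProduct_zero, zero_mulVec,
          add_zero]
      rw [h2, zero_add] at h1
      simp only [hDz, mul_zero, Finset.sum_const_zero, add_zero, hρ, Sum.elim_inr] at h1
      exact h1.symm
    funext i
    rcases i with (i | s) | ((b | a) | i)
    · fin_cases i
      · exact z2
      · exact z3
      · exact z4
    · exact hWz s
    · exact congrFun z5 b
    · exact congrFun z6 a
    · exact congrFun hqz i
  · rw [du_comp, ← hAe]
    ext a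
    have := hV' (Sum.inl (Sum.inl (Sum.inl a)))
    simp only [hsys, gder_sub, gder_sum, gder_mul, der_ren, hDu, gder_X, gder_C, eval_ren,
      MvPolynomial.eval_X, MvPolynomial.eval_C, map_add,
      Polynomial.eval_add, mul_zero, add_zero, hpt,
      Finset.sum_add_distrib] at this
    simp only [Pi.add_apply, mulVec, dotProduct, Pi.smul_apply, smul_eq_mul, map_apply, ev, hk']
    exact sub_eq_zero.1 this
  · rw [du_comp, ← hAe]
    ext a
    have := hV' (Sum.inl (Sum.inl (Sum.inr a)))
    simp only [hsys, gder_sub, gder_sum, gder_mul, der_ren, hDu, gder_X, gder_C, eval_ren,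
      MvPolynomial.eval_X, MvPolynomial.eval_C, mul_zero, add_zero, hpt,
      Finset.sum_add_distrib] at this
    simp only [Pi.add_apply, mulVec, dotProduct, Pi.smul_apply, smul_eq_mul, map_apply, ev, hh']
    exact sub_eq_zero.1 this
  · have h0 : (Polynomial.derivative (ln (hpt x k h q) V ((∑ b, MvPolynomial.C (w1 b) * XK b) -
        MvPolynomial.C 1))).eval 0 = 0 := hV' (Sum.inl (Sum.inr (Sum.inl 0)))
    simp only [gder_sub, gder_sum, gder_mul, gder_X, gder_C, MvPolynomial.eval_C, zero_mul, zero_add,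
      sub_zero] at h0
    exact h0
  · have h0 : (Polynomial.derivative (ln (hpt x k h q) V
        (∑ b, MvPolynomial.C (w2 b) * XK b))).eval 0 = 0 := hV' (Sum.inl (Sum.inr (Sum.inl 1)))
    simp only [gder_sum, gder_mul, gder_X, gder_C, MvPolynomial.eval_C, zero_mul, zero_add] at h0
    exact h0
  · have h0 : (Polynomial.derivative (ln (hpt x k h q) V
        (∑ b, MvPolynomial.C (w1 b) * XH b))).eval 0 = 0 := hV' (Sum.inl (Sum.inr (Sum.inl 2)))
    simp only [gder_sum, gder_mul, gder_X, gder_C, MvPolynomial.eval_C, zero_mul, zero_add] at h0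
    exact h0

end Pool.HY
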