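import Pool.Agent.Helper97.CD.PSys

/-!
# The linearised Lagrange system of a Pfaffian of computed entries: algebra (MP_381749_lc)
-/

set_option autoImplicit false

namespace Pool.HY

open Finset Matrix Pool.CD

section chain
variable {K : Type*} [Field K] {σ τ : Type*} [Fintype σ] [Fintype τ]

omit [Fintype τ] in
/-- chain rule -/
theorem pderiv_aeval (f : σ → MvPolynomial τ K) (o : τ) (P : MvPolynomial σ K) :
    MvPolynomial.pderiv o (MvPolynomial.aeval f P) =
      ∑ q, MvPolynomial.aeval f (MvPolynomial.pderiv q P) * MvPolynomial.pderiv o (f q) := by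
  classical
  induction P using MvPolynomial.induction_on with
  | C a =>
    rw [MvPolynomial.aeval_C, MvPolynomial.algebraMap_eq, MvPolynomial.pderiv_C]
    exact (Finset.sum_eq_zero fun q _ => by rw [MvPolynomial.pderiv_C, map_zero, zero_mul]).symm
  | add p q hp hq =>
    rw [map_add, map_add, hp, hq, ← Finset.sum_add_distrib]
    refine Finset.sum_congr rfl fun i _ => ?_
    rw [map_add, map_add, add_mul]
  | mul_X p i hp =>
    rw [map_mul, MvPolynomial.aeval_X, Derivation.leibniz, hp, smul_eq_mul, smul_eq_mul,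
      Finset.mul_sum]
    have h1 : ∀ q, MvPolynomial.aeval f (MvPolynomial.pderiv q (p * MvPolynomial.X i)) *
          MvPolynomial.pderiv o (f q) =
        (if q = i then MvPolynomial.aeval f p * MvPolynomial.pderiv o (f i) else 0) +
          f i * (MvPolynomial.aeval f (MvPolynomial.pderiv q p) * MvPolynomial.pderiv o (f q)) := by
      intro q
      rw [Derivation.leibniz, smul_eq_mul, smul_eq_mul, map_add, map_mul, map_mul,
        MvPolynomial.aeval_X]
      by_cases hq : q = i
      · subst hq
        rw [if_pos rfl, MvPolynomial.pderiv_X_self, map_one]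
        ring
      · rw [if_neg hq, MvPolynomial.pderiv_X_of_ne (Ne.symm hq), map_zero]
        ring
    simp only [h1]
    rw [Finset.sum_add_distrib, Finset.sum_ite_eq' Finset.univ i, if_pos (Finset.mem_univ i)]

omit [Fintype σ] [Fintype τ] in
theorem eval_aeval (f : σ → MvPolynomial τ K) (z : τ → K) (P : MvPolynomial σ K) :
    MvPolynomial.eval z (MvPolynomial.aeval f P) =
      MvPolynomial.eval (fun q => MvPolynomial.eval z (f q)) P := by
  have h2 : ((MvPolynomial.aeval z : MvPolynomial τ K →ₐ[K] K).comp (MvPolynomial.aeval f)) =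
      MvPolynomial.aeval (fun q => MvPolynomial.eval z (f q)) := by
    ext i
    simp [MvPolynomial.coe_aeval_eq_eval]
  have h3 := DFunLike.congr_fun h2 P
  simpa [MvPolynomial.coe_aeval_eq_eval] using h3

/-- first derivatives of a composition, at a point -/
theorem c1 (Γ : σ → MvPolynomial τ K) (y : τ → K) (p : MvPolynomial σ K) (o : τ) :
    MvPolynomial.eval y (MvPolynomial.pderiv o (MvPolynomial.aeval Γ p)) =
      ∑ s, MvPolynomial.eval y (MvPolynomial.pderiv o (Γ s)) *
        MvPolynomial.eval (fun s => MvPolynomial.eval y (Γ s)) (MvPolynomial.pderiv s p) := by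
  rw [pderiv_aeval, map_sum]
  refine Finset.sum_congr rfl fun s _ => ?_
  rw [map_mul, eval_aeval, mul_comm]

/-- the derivative of `p ∘ Γ` along `u` -/
noncomputable def Du (Γ : σ → MvPolynomial τ K) (y u : τ → K) (p : MvPolynomial σ K) : K :=
  ∑ o, u o * MvPolynomial.eval y (MvPolynomial.pderiv o (MvPolynomial.aeval Γ p))

theorem Du_eq (Γ : σ → MvPolynomial τ K) (y u : τ → K) (p : MvPolynomial σ K) :
    Du Γ y u p = ∑ s, (∑ o, u o * MvPolynomial.eval y (MvPolynomial.pderiv o (Γ s))) *
        MvPolynomial.eval (fun s => MvPolynomial.eval y (Γ s)) (MvPolynomial.pderiv s p) := by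
  unfold Du
  simp only [c1, Finset.mul_sum, Finset.sum_mul]
  rw [Finset.sum_comm]
  exact Finset.sum_congr rfl fun s _ => Finset.sum_congr rfl fun o _ => by ring

/-- second derivatives of a composition, at a point, in the direction `u` -/
theorem c2 (Γ : σ → MvPolynomial τ K) (y u : τ → K) (p : MvPolynomial σ K) (o : τ) :
    ∑ j, u j * MvPolynomial.eval y (MvPolynomial.pderiv j
        (MvPolynomial.pderiv o (MvPolynomial.aeval Γ p))) =
      ∑ s, (MvPolynomial.eval y (MvPolynomial.pderiv o (Γ s)) * Du Γ y u (MvPolynomial.pderiv s p) +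
        (∑ j, u j * MvPolynomial.eval y (MvPolynomial.pderiv j (MvPolynomial.pderiv o (Γ s)))) *
        MvPolynomial.eval (fun s => MvPolynomial.eval y (Γ s)) (MvPolynomial.pderiv s p)) := by
  unfold Du
  simp only [pderiv_aeval Γ o p, map_sum, Derivation.leibniz, smul_eq_mul, map_add, map_mul,
    eval_aeval, Finset.mul_sum, Finset.sum_mul]
  rw [Finset.sum_comm]
  refine Finset.sum_congr rfl fun s _ => ?_
  rw [← Finset.sum_add_distrib]
  exact Finset.sum_congr rfl fun j _ => by ring

end chain

/-- the elimination of the multipliers -/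
theorem comb {K S : Type*} [Field K] [Fintype S] {L : ℕ} (W W' φ κ ρ : S → K)
    (f f' : Fin L → S → K) (q q' G G' : Fin L → K)
    (hφ : ∀ s, φ s + ∑ i, q' i * f i s + ∑ i, q i * f' i s = ρ s)
    (hρ : ∑ s, W s * ρ s = ∑ i, q' i * G i)
    (hκ : ∑ s, W' s * κ s = ∑ i, q i * G' i - ∑ i, q i * ∑ s, W' s * f i s)
    (h1 : ∀ i, G i = ∑ s, W s * f i s)
    (h2 : ∀ i, G' i = ∑ s, (W s * f' i s + W' s * f i s)) :
    ∑ s, W s * φ s + ∑ s, W' s * κ s = 0 := by
  have e1 : ∑ s, W s * φ s = ∑ s, W s * ρ s - ∑ i, q' i * (∑ s, W s * f i s) -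
      ∑ i, q i * ∑ s, W s * f' i s := by
    have : ∀ s, W s * φ s = W s * ρ s - ∑ i, q' i * (W s * f i s) - ∑ i, q i * (W s * f' i s) := by
      intro s
      rw [← hφ s, mul_add, mul_add, Finset.mul_sum, Finset.mul_sum]
      have a1 : ∀ i, W s * (q' i * f i s) = q' i * (W s * f i s) := fun i => by ring
      have a2 : ∀ i, W s * (q i * f' i s) = q i * (W s * f' i s) := fun i => by ring
      simp only [a1, a2]
      ring
    simp only [this, Finset.sum_sub_distrib, Finset.mul_sum]
    rw [Finset.sum_comm (f := fun s i => q' i * (W s * f i s)),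
      Finset.sum_comm (f := fun s i => q i * (W s * f' i s))]
  have e2 : ∑ i, q i * G' i = ∑ i, q i * (∑ s, W s * f' i s) + ∑ i, q i * ∑ s, W' s * f i s := by
    rw [← Finset.sum_add_distrib]
    refine Finset.sum_congr rfl fun i _ => ?_
    rw [h2, Finset.sum_add_distrib, mul_add]
  have e3 : ∑ i, q' i * G i = ∑ i, q' i * (∑ s, W s * f i s) :=
    Finset.sum_congr rfl fun i _ => by rw [h1]
  rw [e1, hκ, hρ, e2, e3]
  ring

end Pool.HY
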