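import Pool.Agent.Helper97.HY.Lin

/-!
# The Lagrange system of a Pfaffian of computed entries (MP_381749_lc)

`A` is a matrix of polynomials in `y : Option ν → K` and `g : Fin L → K`; `F j` are the polynomials
which compute `g j` from `y` and the `g i`, `i < j`.
-/

set_option autoImplicit false

namespace Pool.HY

open Finset Matrix Pool.CD Bez

variable {K : Type*} [Field K] {μ ν : Type*} [Fintype μ] [DecidableEq μ] [Fintype ν]
  [DecidableEq ν] {L : ℕ}

/-- the variables -/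
abbrev VT (μ ν : Type*) (L : ℕ) := (Fin 3 ⊕ (Option ν ⊕ Fin L)) ⊕ ((μ ⊕ μ) ⊕ Fin L)

/-- the renamed polynomials -/
noncomputable abbrev ren (p : MvPolynomial (Option ν ⊕ Fin L) K) : MvPolynomial (VT μ ν L) K :=
  MvPolynomial.rename (fun s => (Sum.inl (Sum.inr s) : VT μ ν L)) p

/-- the slack variables -/
noncomputable abbrev XS (i : Fin 3) : MvPolynomial (VT μ ν L) K :=
  MvPolynomial.X (Sum.inl (Sum.inl i))

/-- the first kernel vector -/
noncomputable abbrev XK (b : μ) : MvPolynomial (VT μ ν L) K :=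
  MvPolynomial.X (Sum.inr (Sum.inl (Sum.inl b)))

/-- the second kernel vector -/
noncomputable abbrev XH (b : μ) : MvPolynomial (VT μ ν L) K :=
  MvPolynomial.X (Sum.inr (Sum.inl (Sum.inr b)))

/-- the multipliers of the program -/
noncomputable abbrev XG (i : Fin L) : MvPolynomial (VT μ ν L) K :=
  MvPolynomial.X (Sum.inr (Sum.inr i))

/-- the quadratic forms -/
noncomputable def qf (M : Matrix μ μ (MvPolynomial (Option ν ⊕ Fin L) K)) :
    MvPolynomial (VT μ ν L) K :=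
  ∑ a, ∑ b, ren (M a b) * (XK a * XH b)

/-- the right-hand sides of the adjoint equations -/
noncomputable def rhs : Option ν ⊕ Fin L → MvPolynomial (VT μ ν L) K
  | Sum.inl o => MvPolynomial.C (o.elim 1 fun _ => 0)
  | Sum.inr j => XG j

/-- the system -/
noncomputable def hsys (A : Matrix μ μ (MvPolynomial (Option ν ⊕ Fin L) K))
    (F : Fin L → MvPolynomial (Option ν ⊕ Fin L) K) (w1 w2 : μ → K) :
    ((μ ⊕ μ) ⊕ (Fin 3 ⊕ (Option ν ⊕ Fin L))) ⊕ Fin L → MvPolynomial (VT μ ν L) K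
  | Sum.inl (Sum.inl (Sum.inl a)) => (∑ b, ren (A a b) * XK b) -
      (XS 0 * MvPolynomial.C (w1 a) + XS 1 * MvPolynomial.C (w2 a))
  | Sum.inl (Sum.inl (Sum.inr a)) => (∑ b, ren (A a b) * XH b) - XS 2 * MvPolynomial.C (w2 a)
  | Sum.inl (Sum.inr (Sum.inl 0)) => (∑ b, MvPolynomial.C (w1 b) * XK b) - MvPolynomial.C 1
  | Sum.inl (Sum.inr (Sum.inl 1)) => ∑ b, MvPolynomial.C (w2 b) * XK b
  | Sum.inl (Sum.inr (Sum.inl 2)) => ∑ b, MvPolynomial.C (w1 b) * XH b
  | Sum.inl (Sum.inr (Sum.inr s)) => qf (A.map (MvPolynomial.pderiv s)) +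
      (∑ i, XG i * ren (MvPolynomial.pderiv s (F i))) - rhs s
  | Sum.inr j => MvPolynomial.X (Sum.inl (Sum.inr (Sum.inr j))) - ren (F j)

/-- the point of the system -/
def hpt (x : Option ν ⊕ Fin L → K) (k h : μ → K) (q : Fin L → K) : VT μ ν L → K
  | Sum.inl (Sum.inl _) => 0
  | Sum.inl (Sum.inr s) => x s
  | Sum.inr (Sum.inl (Sum.inl b)) => k b
  | Sum.inr (Sum.inl (Sum.inr b)) => h b
  | Sum.inr (Sum.inr i) => q i

/-- degree of the renamed polynomials -/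
theorem ren_mem {e : ℕ} (p : MvPolynomial (Option ν ⊕ Fin L) K) (hp : p.totalDegree ≤ e) :
    ren (μ := μ) p ∈ Wb K (Fin 3 ⊕ (Option ν ⊕ Fin L)) ((μ ⊕ μ) ⊕ Fin L) e 0 := by
  classical
  unfold ren
  rw [p.as_sum, map_sum]
  refine Submodule.sum_mem _ fun d hd => ?_
  rw [MvPolynomial.rename_monomial, MvPolynomial.monomial_eq]
  have h1 : (MvPolynomial.C (MvPolynomial.coeff d p) : MvPolynomial (VT μ ν L) K) ∈
      Wb K (Fin 3 ⊕ (Option ν ⊕ Fin L)) ((μ ⊕ μ) ⊕ Fin L) 0 0 := Wb_C _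
  have h2 : (Finsupp.mapDomain (fun s => (Sum.inl (Sum.inr s) : VT μ ν L)) d).prod
      (fun n k => (MvPolynomial.X n : MvPolynomial (VT μ ν L) K) ^ k) =
      ∏ o : Option ν ⊕ Fin L, (MvPolynomial.X (Sum.inl (Sum.inr o))) ^ d o := by
    rw [Finsupp.prod_mapDomain_index_inj (by
      intro a b hab
      simpa using hab)]
    rw [Finsupp.prod_fintype _ _ (fun _ => pow_zero _)]
  rw [h2]
  have h3 := Wb_prod (K := K) (s1 := Fin 3 ⊕ (Option ν ⊕ Fin L)) (s2 := (μ ⊕ μ) ⊕ Fin L)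
    (univ : Finset (Option ν ⊕ Fin L))
    (d1 := fun o => d o * 1) (d2 := fun o => d o * 0)
    (f := fun o => (MvPolynomial.X (Sum.inl (Sum.inr o))) ^ d o)
    fun o _ => Wb_pow (Wb_Xl (Sum.inr o)) _
  refine Wb_mono ?_ ?_ (Wb_mul h1 h3)
  · simp only [mul_one, zero_add]
    have h4 := (MvPolynomial.le_totalDegree hd).trans hp
    rwa [Finsupp.sum_fintype _ _ (fun _ => rfl)] at h4
  · simp

theorem hsys_mem1 {e : ℕ} (A : Matrix μ μ (MvPolynomial (Option ν ⊕ Fin L) K))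
    (F : Fin L → MvPolynomial (Option ν ⊕ Fin L) K)
    (hA : ∀ a b, (A a b).totalDegree ≤ e + 1) (w1 w2 : μ → K) (i : μ ⊕ μ) :
    hsys A F w1 w2 (Sum.inl (Sum.inl i)) ∈
      Wb K (Fin 3 ⊕ (Option ν ⊕ Fin L)) ((μ ⊕ μ) ⊕ Fin L) (e + 1) 1 := by
  have hs : ∀ (i : Fin 3) (c : K), (XS i * MvPolynomial.C c : MvPolynomial (VT μ ν L) K) ∈
      Wb K (Fin 3 ⊕ (Option ν ⊕ Fin L)) ((μ ⊕ μ) ⊕ Fin L) (e + 1) 1 := fun i c =>
    Wb_mono (by omega) (Nat.zero_le _) (Wb_mul (d1 := 1) (d2 := 0) (e1 := 0) (e2 := 0)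
        (Wb_Xl _) (Wb_C _))
  rcases i with a | a
  · refine Submodule.sub_mem _ (Submodule.sum_mem _ fun b _ => ?_)
      (Submodule.add_mem _ (hs 0 _) (hs 1 _))
    exact Wb_mul (d1 := e + 1) (d2 := 0) (e1 := 0) (e2 := 1) (ren_mem _ (hA a b)) (Wb_Xr _)
  · refine Submodule.sub_mem _ (Submodule.sum_mem _ fun b _ => ?_) (hs 2 _)
    exact Wb_mul (d1 := e + 1) (d2 := 0) (e1 := 0) (e2 := 1) (ren_mem _ (hA a b)) (Wb_Xr _)

theorem hsys_mem2 {e : ℕ} (A : Matrix μ μ (MvPolynomial (Option ν ⊕ Fin L) K))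
    (F : Fin L → MvPolynomial (Option ν ⊕ Fin L) K)
    (hA : ∀ a b, (A a b).totalDegree ≤ e + 1) (hF : ∀ j, (F j).totalDegree ≤ e + 2)
    (w1 w2 : μ → K) (j : Fin 3 ⊕ (Option ν ⊕ Fin L)) :
    hsys A F w1 w2 (Sum.inl (Sum.inr j)) ∈
      Wb K (Fin 3 ⊕ (Option ν ⊕ Fin L)) ((μ ⊕ μ) ⊕ Fin L) (e + 1) 2 := by
  have hc : ∀ c : K, (MvPolynomial.C c : MvPolynomial (VT μ ν L) K) ∈
      Wb K (Fin 3 ⊕ (Option ν ⊕ Fin L)) ((μ ⊕ μ) ⊕ Fin L) (e + 1) 2 := fun c =>
    Wb_mono (Nat.zero_le _) (Nat.zero_le _) (Wb_C _)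
  have hx : ∀ (c : K) (b : (μ ⊕ μ) ⊕ Fin L), (MvPolynomial.C c * MvPolynomial.X (Sum.inr b) :
      MvPolynomial (VT μ ν L) K) ∈
      Wb K (Fin 3 ⊕ (Option ν ⊕ Fin L)) ((μ ⊕ μ) ⊕ Fin L) (e + 1) 2 := fun c b =>
    Wb_mono (Nat.zero_le _) (by norm_num) (Wb_mul (d1 := 0) (d2 := 0) (e1 := 0) (e2 := 1)
      (Wb_C _) (Wb_Xr _))
  rcases j with i | s
  · fin_cases i
    · exact Submodule.sub_mem _ (Submodule.sum_mem _ fun b _ => hx _ _) (hc _)
    · exact Submodule.sum_mem _ fun b _ => hx _ _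
    · exact Submodule.sum_mem _ fun b _ => hx _ _
  · refine Submodule.sub_mem _ (Submodule.add_mem _ (Submodule.sum_mem _ fun a _ =>
      Submodule.sum_mem _ fun b _ => ?_) (Submodule.sum_mem _ fun i _ => ?_)) ?_
    · have h1 := Wb_mul (d1 := e) (d2 := 0) (e1 := 0) (e2 := 2)
        (ren_mem (μ := μ) _ (totalDegree_pderiv_le s _ e (hA a b)))
        (Wb_mul (d1 := 0) (d2 := 1) (e1 := 0) (e2 := 1) (Wb_Xr (Sum.inl (Sum.inl a)))
          (Wb_Xr (Sum.inl (Sum.inr b))))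
      exact Wb_mono (by omega) (by omega) h1
    · have h1 := Wb_mul (d1 := 0) (d2 := 1) (e1 := e + 1) (e2 := 0)
        (Wb_Xr (K := K) (s1 := Fin 3 ⊕ (Option ν ⊕ Fin L)) (s2 := (μ ⊕ μ) ⊕ Fin L) (Sum.inr i))
        (ren_mem (μ := μ) _ (totalDegree_pderiv_le s _ (e + 1) (hF i)))
      exact Wb_mono (by omega) (by omega) h1
    · rcases s with o | j
      · exact hc _
      · exact Wb_mono (by omega) (by omega)
          (Wb_Xr (K := K) (s1 := Fin 3 ⊕ (Option ν ⊕ Fin L)) (s2 := (μ ⊕ μ) ⊕ Fin L) (Sum.inr j))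

theorem hsys_mem3 {e : ℕ} (A : Matrix μ μ (MvPolynomial (Option ν ⊕ Fin L) K))
    (F : Fin L → MvPolynomial (Option ν ⊕ Fin L) K) (hF : ∀ j, (F j).totalDegree ≤ e + 2)
    (w1 w2 : μ → K) (j : Fin L) :
    hsys A F w1 w2 (Sum.inr j) ∈
      Wb K (Fin 3 ⊕ (Option ν ⊕ Fin L)) ((μ ⊕ μ) ⊕ Fin L) (e + 2) 0 := by
  refine Submodule.sub_mem _ (Wb_mono (by omega) (by omega) (Wb_Xl _)) (ren_mem _ (hF j))

theorem eval_ren (x : Option ν ⊕ Fin L → K) (k h : μ → K) (q : Fin L → K)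
    (p : MvPolynomial (Option ν ⊕ Fin L) K) :
    MvPolynomial.eval (hpt x k h q) (ren p) = MvPolynomial.eval x p := by
  unfold ren
  rw [MvPolynomial.eval_rename]
  rfl

theorem eval_qf (x : Option ν ⊕ Fin L → K) (k h : μ → K) (q : Fin L → K)
    (M : Matrix μ μ (MvPolynomial (Option ν ⊕ Fin L) K)) :
    MvPolynomial.eval (hpt x k h q) (qf M) = k ⬝ᵥ (ev x M *ᵥ h) := by
  unfold qf
  simp only [map_sum, map_mul, eval_ren, MvPolynomial.eval_X, hpt, dotProduct, mulVec,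
    Finset.mul_sum, ev, map_apply]
  exact Finset.sum_congr rfl fun a _ => Finset.sum_congr rfl fun b _ => by ring

/-- the values of the right-hand sides -/
def rv (q : Fin L → K) : Option ν ⊕ Fin L → K
  | Sum.inl o => o.elim 1 fun _ => 0
  | Sum.inr j => q j

theorem eval_hsys (A : Matrix μ μ (MvPolynomial (Option ν ⊕ Fin L) K))
    (F : Fin L → MvPolynomial (Option ν ⊕ Fin L) K) (w1 w2 : μ → K)
    (x : Option ν ⊕ Fin L → K) (k h : μ → K) (q : Fin L → K)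
    (hk : ev x A *ᵥ k = 0) (hh : ev x A *ᵥ h = 0)
    (hs : ∀ s, k ⬝ᵥ (dv x s A *ᵥ h) + ∑ i, q i * MvPolynomial.eval x (MvPolynomial.pderiv s (F i)) =
      rv q s)
    (hF : ∀ j, x (Sum.inr j) = MvPolynomial.eval x (F j))
    (hw1 : w1 ⬝ᵥ k = 1) (hw2 : w2 ⬝ᵥ k = 0) (hw3 : w1 ⬝ᵥ h = 0)
    (i : ((μ ⊕ μ) ⊕ (Fin 3 ⊕ (Option ν ⊕ Fin L))) ⊕ Fin L) :
    MvPolynomial.eval (hpt x k h q) (hsys A F w1 w2 i) = 0 := by
  rcases i with ((a | a) | (i | s)) | j
  · simp only [hsys, map_sub, map_add, map_sum, map_mul, eval_ren, MvPolynomial.eval_X, hpt,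
      zero_mul, add_zero, sub_zero]
    exact congrFun hk a
  · simp only [hsys, map_sub, map_sum, map_mul, eval_ren, MvPolynomial.eval_X, hpt,
      zero_mul, sub_zero]
    exact congrFun hh a
  · fin_cases i
    · have h0 : MvPolynomial.eval (hpt x k h q) ((∑ b, MvPolynomial.C (w1 b) * XK b) -
          MvPolynomial.C 1) = 0 := by
        simp only [map_sub, map_sum, map_mul, MvPolynomial.eval_X, MvPolynomial.eval_C, hpt]
        exact sub_eq_zero.2 hw1
      exact h0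
    · have h0 : MvPolynomial.eval (hpt x k h q) (∑ b, MvPolynomial.C (w2 b) * XK b) = 0 := by
        simp only [map_sum, map_mul, MvPolynomial.eval_X, MvPolynomial.eval_C, hpt]
        exact hw2
      exact h0
    · have h0 : MvPolynomial.eval (hpt x k h q) (∑ b, MvPolynomial.C (w1 b) * XH b) = 0 := by
        simp only [map_sum, map_mul, MvPolynomial.eval_X, MvPolynomial.eval_C, hpt]
        exact hw3
      exact h0
  · have h1 : MvPolynomial.eval (hpt x k h q) (rhs s) = rv q s := by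
      rcases s with o | j
      · simp only [rhs, rv, MvPolynomial.eval_C]
      · simp only [rhs, rv, MvPolynomial.eval_X, hpt]
    have h2 : ev x (A.map (MvPolynomial.pderiv s)) = dv x s A := by
      ext a b
      simp only [ev, dv, map_apply]
    simp only [hsys, map_sub, map_add, map_sum, map_mul, eval_qf, eval_ren, h1, h2,
      MvPolynomial.eval_X, hpt]
    rw [hs s, sub_self]
  · simp only [hsys, map_sub, eval_ren, MvPolynomial.eval_X, hpt]
    exact sub_eq_zero.2 (hF j)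

/-- derivative of a renamed polynomial along a line -/
theorem der_ren (x : Option ν ⊕ Fin L → K) (k h : μ → K) (q : Fin L → K) (V : VT μ ν L → K)
    (p : MvPolynomial (Option ν ⊕ Fin L) K) :
    (Polynomial.derivative (ln (hpt x k h q) V (ren p))).eval 0 =
      ∑ s, V (Sum.inl (Sum.inr s)) * MvPolynomial.eval x (MvPolynomial.pderiv s p) := by
  have h1 : ln (hpt x k h q) V (ren p) = ln x (fun s => V (Sum.inl (Sum.inr s))) p := by
    unfold ln ren
    rw [MvPolynomial.aeval_rename]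
    rfl
  rw [h1, ln_deriv]
  exact Finset.sum_congr rfl fun o _ => mul_comm _ _

/-- derivative of a quadratic form along a line -/
theorem der_qf (x : Option ν ⊕ Fin L → K) (k h : μ → K) (q : Fin L → K) (V : VT μ ν L → K)
    (M : Matrix μ μ (MvPolynomial (Option ν ⊕ Fin L) K)) :
    (Polynomial.derivative (ln (hpt x k h q) V (qf M))).eval 0 =
      (fun a => V (Sum.inr (Sum.inl (Sum.inl a)))) ⬝ᵥ (ev x M *ᵥ h) +
        k ⬝ᵥ (ev x M *ᵥ (fun b => V (Sum.inr (Sum.inl (Sum.inr b))))) +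
        k ⬝ᵥ ((∑ s, V (Sum.inl (Sum.inr s)) • dv x s M) *ᵥ h) := by
  unfold qf
  simp only [gder_sum, gder_mul, gder_X, der_ren]
  simp only [eval_ren, MvPolynomial.eval_X, map_mul, hpt,
    dotProduct, mulVec, Finset.mul_sum, ← Finset.sum_add_distrib, dv, ev, map_apply,
    Matrix.sum_apply, Matrix.smul_apply, smul_eq_mul]
  exact Finset.sum_congr rfl fun a _ => Finset.sum_congr rfl fun b _ => by ring

end Pool.HY
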